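import Mathlib

/-! # Contacts of a self-avoiding walk with a set: local surgeries -/

set_option autoImplicit false

namespace Pool.Agent.W840.CT

abbrev Pt := ℤ × ℤ

/-- nearest neighbours -/
def adj (p q : Pt) : Prop := |q.1 - p.1| + |q.2 - p.2| = 1

theorem adj_comm {p q : Pt} (h : adj p q) : adj q p := by
  unfold adj at *
  rw [abs_sub_comm p.1, abs_sub_comm p.2]
  exact h

theorem adj_cases {p q : Pt} (h : adj p q) :
    q = p + (1, 0) ∨ q = p + (-1, 0) ∨ q = p + (0, 1) ∨ q = p + (0, -1) := by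
  obtain ⟨a, b⟩ := p
  obtain ⟨c, d⟩ := q
  unfold adj at h
  simp only [Prod.mk_add_mk, Prod.mk.injEq] at *
  rcases abs_cases (c - a) with h1 | h1 <;> rcases abs_cases (d - b) with h2 | h2 <;> omega

/-- `f` is a unit vector -/
def Un (f : Pt) : Prop := f = (1, 0) ∨ f = (-1, 0) ∨ f = (0, 1) ∨ f = (0, -1)

theorem adj_iff {p q : Pt} : adj p q ↔ Un (q - p) := by
  constructor
  · intro h
    rcases adj_cases h with h | h | h | h <;> subst h <;> simp [Un]
  · intro h
    obtain ⟨a, b⟩ := p
    obtain ⟨c, d⟩ := q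
    unfold Un at h
    unfold adj
    simp only [Prod.mk_sub_mk, Prod.mk.injEq] at h
    rcases h with h | h | h | h <;> rw [h.1, h.2] <;> simp

/-- `x` is immediately before `y` in `B` -/
def Con (B : List Pt) (x y : Pt) : Prop :=
  ∃ i, ∃ h : i + 1 < B.length, B[i] = x ∧ B[i + 1] = y

theorem Con.mem_left {B : List Pt} {x y : Pt} (h : Con B x y) : x ∈ B := by
  obtain ⟨i, hi, rfl, -⟩ := h
  exact List.getElem_mem _

theorem Con.mem_right {B : List Pt} {x y : Pt} (h : Con B x y) : y ∈ B := by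
  obtain ⟨i, hi, -, rfl⟩ := h
  exact List.getElem_mem _

theorem Con.adj {B : List Pt} (hB : B.IsChain adj) {x y : Pt} (h : Con B x y) : adj x y := by
  obtain ⟨i, hi, rfl, rfl⟩ := h
  exact List.isChain_iff_getElem.1 hB i hi

theorem Con.right_unique {B : List Pt} (hB : B.Nodup) {x y z : Pt} (h : Con B x y)
    (h' : Con B x z) : y = z := by
  obtain ⟨i, hi, rfl, rfl⟩ := h
  obtain ⟨j, hj, h1, rfl⟩ := h'
  have : j = i := (hB.getElem_inj_iff).1 h1
  subst this
  rfl

theorem Con.left_unique {B : List Pt} (hB : B.Nodup) {x y z : Pt} (h : Con B y x)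
    (h' : Con B z x) : y = z := by
  obtain ⟨i, hi, rfl, rfl⟩ := h
  obtain ⟨j, hj, rfl, h1⟩ := h'
  have : j + 1 = i + 1 := (hB.getElem_inj_iff).1 h1
  have : j = i := by omega
  subst this
  rfl

theorem Con.ne {B : List Pt} (hB : B.Nodup) {x y z : Pt} (h : Con B x y) (h' : Con B y z) :
    x ≠ z := by
  obtain ⟨i, hi, rfl, rfl⟩ := h
  obtain ⟨j, hj, h1, rfl⟩ := h'
  have : j = i + 1 := (hB.getElem_inj_iff).1 h1
  subst this
  intro h2
  have := (hB.getElem_inj_iff).1 h2
  omega

/-- neighbours along `B` -/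
def Nb (B : List Pt) (x y : Pt) : Prop := Con B x y ∨ Con B y x

theorem Nb.symm {B : List Pt} {x y : Pt} (h : Nb B x y) : Nb B y x := Or.symm h

theorem Nb.adj {B : List Pt} (hB : B.IsChain CT.adj) {x y : Pt} (h : Nb B x y) :
    CT.adj x y := by
  rcases h with h | h
  · exact h.adj hB
  · exact adj_comm (h.adj hB)

theorem Nb.mem_right {B : List Pt} {x y : Pt} (h : Nb B x y) : y ∈ B := by
  rcases h with h | h
  · exact h.mem_right
  · exact h.mem_left

theorem Nb.mem_left {B : List Pt} {x y : Pt} (h : Nb B x y) : x ∈ B := h.symm.mem_right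

/-- interior points have two neighbours along `B` -/
theorem interior {B : List Pt} {v : Pt} (hv : v ∈ B)
    (h0 : B.head? ≠ some v) (h1 : B.getLast? ≠ some v) :
    ∃ z w, Con B z v ∧ Con B v w := by
  obtain ⟨i, hi, rfl⟩ := List.mem_iff_getElem.1 hv
  have hi0 : i ≠ 0 := by
    rintro rfl
    apply h0
    rw [List.head?_eq_getElem?, List.getElem?_eq_getElem hi]
  have hi1 : i + 1 < B.length := by
    by_contra h
    apply h1
    rw [List.getLast?_eq_getElem?]
    have : B.length - 1 = i := by omega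
    rw [this, List.getElem?_eq_getElem hi]
  refine ⟨B[i - 1], B[i + 1], ⟨i - 1, by omega, rfl, ?_⟩, ⟨i, hi1, rfl, rfl⟩⟩
  congr 1
  omega

/-- a surgery of the walk `B` at the point `p`: the point `x` of `B` is replaced by the list `L`,
which contains `p`. The code is `(true, q - p)` for a detour through `p` and `q`, and
`(false, x - p)` for a flip. -/
structure Surg (B : List Pt) (p : Pt) (κ : Bool × Pt) (x : Pt) (L : List Pt) : Prop where
  mx : x ∈ B
  np : p ∉ B
  un : κ.1 = true → Un κ.2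
  nq : κ.1 = true → p + κ.2 ∉ B
  sh : (κ.1 = true ∧ (L = [x, p, p + κ.2] ∨ L = [x, p + κ.2, p])) ∨
    (κ.1 = false ∧ x = p + κ.2 ∧ L = [p])
  ch : L.IsChain adj
  pr : ∀ z, Con B z x → ∀ u ∈ L.head?, adj z u
  su : ∀ y, Con B x y → ∀ u ∈ L.getLast?, adj u y
  c1 : |κ.2.1| ≤ 1
  c2 : |κ.2.2| ≤ 1
  d1 : |x.1 - p.1| ≤ 2
  d2 : |x.2 - p.2| ≤ 2

/-- detour with an edge `v, v'` of `B` -/
theorem surg_det {B : List Pt} (hB : B.IsChain adj) (hn : B.Nodup) {p v v' δ : Pt}
    (h : Nb B v v') (hp : p ∉ B) (hq : p + δ ∉ B) (hδ : Un δ) (h1 : adj p v)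
    (h2 : adj (p + δ) v') : ∃ x L, Surg B p (true, δ) x L := by
  have hc : |δ.1| ≤ 1 ∧ |δ.2| ≤ 1 := by
    rcases hδ with h | h | h | h <;> subst h <;> norm_num
  have hpq : adj p (p + δ) := by rw [adj_iff]; simpa using hδ
  have hd : ∀ x : Pt, adj p x → |x.1 - p.1| ≤ 2 ∧ |x.2 - p.2| ≤ 2 := by
    intro x hx
    unfold adj at hx
    have := abs_nonneg (x.1 - p.1)
    have := abs_nonneg (x.2 - p.2)
    omega
  have hd' : ∀ x : Pt, adj (p + δ) x → |x.1 - p.1| ≤ 2 ∧ |x.2 - p.2| ≤ 2 := by
    intro x hx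
    unfold adj at hx
    simp only [Prod.fst_add, Prod.snd_add] at hx
    obtain ⟨h3, h4⟩ := hc
    have e1 := abs_sub_abs_le_abs_sub (x.1 - p.1) δ.1
    have e2 := abs_sub_abs_le_abs_sub (x.2 - p.2) δ.2
    have e3 : x.1 - p.1 - δ.1 = x.1 - (p.1 + δ.1) := by ring
    have e4 : x.2 - p.2 - δ.2 = x.2 - (p.2 + δ.2) := by ring
    rw [e3] at e1
    rw [e4] at e2
    have := abs_nonneg (x.1 - (p.1 + δ.1))
    have := abs_nonneg (x.2 - (p.2 + δ.2))
    omega
  rcases h with h | h
  · refine ⟨v, [v, p, p + δ], ⟨h.mem_left, hp, fun _ => hδ, fun _ => hq, Or.inl ⟨rfl, Or.inl rfl⟩,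
      ?_, ?_, ?_, hc.1, hc.2, (hd v h1).1, (hd v h1).2⟩⟩
    · simp only [List.isChain_cons_cons, List.IsChain.singleton, and_true]
      exact ⟨adj_comm h1, hpq⟩
    · intro z hz u hu
      simp only [List.head?_cons, Option.mem_def, Option.some.injEq] at hu
      subst hu
      exact hz.adj hB
    · intro y hy u hu
      simp only [List.getLast?_cons_cons, List.getLast?_singleton, Option.mem_def,
        Option.some.injEq] at hu
      subst hu
      rw [← h.right_unique hn hy]
      exact h2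
  · refine ⟨v', [v', p + δ, p], ⟨h.mem_left, hp, fun _ => hδ, fun _ => hq,
      Or.inl ⟨rfl, Or.inr rfl⟩, ?_, ?_, ?_, hc.1, hc.2, (hd' v' h2).1, (hd' v' h2).2⟩⟩
    · simp only [List.isChain_cons_cons, List.IsChain.singleton, and_true]
      exact ⟨adj_comm h2, adj_comm hpq⟩
    · intro z hz u hu
      simp only [List.head?_cons, Option.mem_def, Option.some.injEq] at hu
      subst hu
      exact hz.adj hB
    · intro y hy u hu
      simp only [List.getLast?_cons_cons, List.getLast?_singleton, Option.mem_def,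
        Option.some.injEq] at hu
      subst hu
      rw [← h.right_unique hn hy]
      exact h1

/-- flip of the point `x` of `B` with the neighbours `a`, `b` along `B` -/
theorem surg_flip {B : List Pt} (hn : B.Nodup) {p x a b : Pt}
    (h : Nb B a x) (h' : Nb B x b) (hab : a ≠ b) (hp : p ∉ B) (h1 : adj p a) (h2 : adj p b)
    (c1 : |x.1 - p.1| ≤ 1) (c2 : |x.2 - p.2| ≤ 1) :
    ∃ L, Surg B p (false, x - p) x L := by
  -- predecessor and successor of `x` are among `a`, `b`
  have key : ∀ z w, Con B z x → Con B x w → adj z p ∧ adj p w := by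
    intro z w hz hw
    rcases h with h | h <;> rcases h' with h' | h'
    · rw [← h.left_unique hn hz, ← h'.right_unique hn hw]
      exact ⟨adj_comm h1, h2⟩
    · exact absurd (h.left_unique hn h') hab
    · exact absurd (h.right_unique hn h') hab
    · rw [← h.right_unique hn hw, ← h'.left_unique hn hz]
      exact ⟨adj_comm h2, h1⟩
  have hz : ∃ z w, Con B z x ∧ Con B x w := by
    rcases h with h | h <;> rcases h' with h' | h'
    · exact ⟨_, _, h, h'⟩
    · exact absurd (h.left_unique hn h') hab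
    · exact absurd (h.right_unique hn h') hab
    · exact ⟨_, _, h', h⟩
  obtain ⟨z, w, hz, hw⟩ := hz
  refine ⟨[p], ⟨hz.mem_right, hp, fun h => absurd h (by simp), fun h => absurd h (by simp),
    Or.inr ⟨rfl, by simp, rfl⟩, List.IsChain.singleton _, ?_, ?_, by simpa using c1,
    by simpa using c2, by omega, by omega⟩⟩
  · intro z' hz' u hu
    simp only [List.head?_cons, Option.mem_def, Option.some.injEq] at hu
    subst hu
    exact (key z' w hz' hw).1
  · intro y' hy' u hu
    simp only [List.getLast?_singleton, Option.mem_def, Option.some.injEq] at hu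
    subst hu
    exact (key z y' hz hy').2

end Pool.Agent.W840.CT
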