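import Pool.Agent.W840.CT.Map

/-! # Counting walks with many surgeries -/

set_option autoImplicit false

namespace Pool.Agent.W840.CT

open scoped Classical

/-- self-avoiding walks of length `n` as lists -/
def LS (n : ℕ) : Set (List Pt) :=
  {l | l.length = n + 1 ∧ l.head? = some 0 ∧ l.IsChain adj ∧ l.Nodup}

/-- extension by one step -/
def extl (q : List Pt × Pt) : List Pt := q.1 ++ [(q.1.getLastD 0) + q.2]

def dirs : Finset Pt := {(1, 0), (-1, 0), (0, 1), (0, -1)}

theorem mem_dirs {f : Pt} : f ∈ dirs ↔ Un f := by simp [dirs, Un]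

theorem LS_subset (n : ℕ) : LS (n + 1) ⊆ extl '' (LS n ×ˢ (dirs : Set Pt)) := by
  rintro l ⟨h1, h2, h3, h4⟩
  have hne : l ≠ [] := by rintro rfl; simp at h1
  have hl : l.dropLast ++ [l.getLast hne] = l := List.dropLast_append_getLast hne
  have hlen : l.dropLast.length = n + 1 := by rw [List.length_dropLast]; omega
  have hne' : l.dropLast ≠ [] := by
    intro h
    rw [h] at hlen
    simp at hlen
  have hrel := h3.rel_getLast_dropLast hne'
  refine ⟨(l.dropLast, l.getLast hne - l.dropLast.getLast hne'), ⟨⟨hlen, ?_, h3.dropLast,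
    h4.sublist (List.dropLast_sublist l)⟩, ?_⟩, ?_⟩
  · obtain ⟨a, t, rfl⟩ : ∃ a t, l = a :: t := List.exists_cons_of_ne_nil hne
    cases t with
    | nil => simp at h1
    | cons b t => simpa using h2
  · show _ ∈ (dirs : Set Pt)
    rw [Finset.mem_coe, mem_dirs]
    exact adj_iff.1 hrel
  · unfold extl
    have e : l.dropLast.getLastD 0 = l.dropLast.getLast hne' := by
      rw [List.getLastD_eq_getLast?, List.getLast?_eq_some_getLast hne']
      rfl
    simp only [e]
    rw [add_sub_cancel]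
    exact hl

theorem LS_finite (n : ℕ) : (LS n).Finite := by
  induction n with
  | zero =>
    refine (Set.finite_singleton [(0 : Pt)]).subset ?_
    rintro l ⟨h1, h2, -, -⟩
    match l, h1, h2 with
    | [a], _, h2 =>
      simp only [List.head?_cons, Option.some.injEq] at h2
      rw [h2]
      rfl
  | succ n ih =>
    exact ((ih.prod dirs.finite_toSet).image _).subset (LS_subset n)

theorem LS_succ (n : ℕ) : (LS (n + 1)).ncard ≤ 4 * (LS n).ncard := by
  have hf : (LS n ×ˢ (dirs : Set Pt)).Finite := (LS_finite n).prod dirs.finite_toSet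
  calc (LS (n + 1)).ncard ≤ (extl '' (LS n ×ˢ (dirs : Set Pt))).ncard :=
        Set.ncard_le_ncard (LS_subset n) (hf.image _)
    _ ≤ (LS n ×ˢ (dirs : Set Pt)).ncard := Set.ncard_image_le hf
    _ = (LS n).ncard * (dirs : Set Pt).ncard := Set.ncard_prod
    _ = 4 * (LS n).ncard := by
        rw [Set.ncard_coe_finset, mul_comm]
        rfl

theorem LS_add (n k : ℕ) : (LS (n + 2 * k)).ncard ≤ 16 ^ k * (LS n).ncard := by
  induction k with
  | zero => simp
  | succ k ih =>
    have e : n + 2 * (k + 1) = n + 2 * k + 1 + 1 := by ring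
    rw [e]
    calc _ ≤ 4 * (LS (n + 2 * k + 1)).ncard := LS_succ _
      _ ≤ 4 * (4 * (LS (n + 2 * k)).ncard) := Nat.mul_le_mul_left _ (LS_succ _)
      _ ≤ 4 * (4 * (16 ^ k * (LS n).ncard)) := by gcongr
      _ = 16 ^ (k + 1) * (LS n).ncard := by ring

/-- residue class -/
def cls (p : Pt) : Pt := (p.1 % 8, p.2 % 8)

/-- far from the origin -/
def far (p : Pt) : Prop := 3 ≤ |p.1| ∨ 3 ≤ |p.2|

/-- points of `A` in the class `c` with a surgery of code `κ` -/
noncomputable def QS (A : Finset Pt) (κ : Bool × Pt) (c : Pt) (B : List Pt) : Finset Pt :=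
  A.filter (fun p => cls p = c ∧ far p ∧ ∃ x L, Surg B p κ x L)

theorem fam_of {A : Finset Pt} {κ : Bool × Pt} {c : Pt} {B : List Pt} {T : Finset Pt}
    (hT : T ⊆ QS A κ c B) (hA : ∀ v ∈ B, v ∈ A → v = 0) : Fam B A κ T := by
  have h : ∀ p ∈ T, p ∈ A ∧ cls p = c ∧ far p ∧ ∃ x L, Surg B p κ x L := by
    intro p hp
    exact Finset.mem_filter.1 (hT hp)
  refine ⟨fun p hp => (h p hp).2.2.2, fun p hp p' hp' hne => ?_, fun p hp => (h p hp).1, hA⟩
  have h1 := (h p hp).2.1
  have h2 := (h p' hp').2.1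
  rw [← h2] at h1
  unfold cls at h1
  rw [Prod.mk.injEq] at h1
  by_contra hcon
  push Not at hcon
  apply hne
  obtain ⟨ha, hb⟩ := hcon
  rw [abs_lt] at ha hb
  refine Prod.ext ?_ ?_ <;> omega

theorem recover {A : Finset Pt} {κ : Bool × Pt} {c : Pt} {B : List Pt} {T : Finset Pt}
    (hT : T ⊆ QS A κ c B) (hA : ∀ v ∈ B, v ∈ A → v = 0) :
    (nw B κ T).toFinset.filter (fun v => v ∈ A ∧ v ≠ 0 ∧ cls v = c) = T := by
  have F := fam_of hT hA
  have h : ∀ p ∈ T, p ∈ A ∧ cls p = c ∧ far p ∧ ∃ x L, Surg B p κ x L := by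
    intro p hp
    exact Finset.mem_filter.1 (hT hp)
  ext v
  simp only [Finset.mem_filter, List.mem_toFinset]
  constructor
  · rintro ⟨h1, h2, h3, h4⟩
    rcases F.mem_nw h1 with h5 | ⟨p, hp, h5 | ⟨h0, h5⟩⟩
    · exact absurd (hA v h5 h2) h3
    · rw [h5]; exact hp
    · exfalso
      have h6 := (h p hp).2.1
      rw [← h4, h5] at h6
      unfold cls at h6
      simp only [Prod.fst_add, Prod.snd_add, Prod.mk.injEq] at h6
      rcases (F.sp hp).un h0 with h7 | h7 | h7 | h7 <;> rw [h7] at h6 <;> simp only at h6 <;>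
        omega
  · intro hv
    refine ⟨F.p_mem_nw hv, (h v hv).1, ?_, (h v hv).2.1⟩
    rintro rfl
    rcases (h 0 hv).2.2.1 with h | h <;> simp at h

theorem count1 (A : Finset Pt) (κ : Bool × Pt) (c : Pt) (r J n : ℕ) :
    ({B | B ∈ LS n ∧ (∀ v ∈ B, v ∈ A → v = 0) ∧ J ≤ (QS A κ c B).card} : Set (List Pt)).ncard *
      J.choose r ≤ 16 ^ r * (LS n).ncard := by
  set S : Set (List Pt) := {B | B ∈ LS n ∧ (∀ v ∈ B, v ∈ A → v = 0) ∧ J ≤ (QS A κ c B).card}
    with hS
  have hSf : S.Finite := (LS_finite n).subset (fun B hB => hB.1)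
  set m := n + (if κ.1 = true then 2 else 0) * r with hm
  have hmain : ((hSf.toFinset).sigma (fun B => (QS A κ c B).powersetCard r)).card ≤
      (LS_finite m).toFinset.card := by
    refine Finset.card_le_card_of_injOn (fun q => nw q.1 κ q.2) ?_ ?_
    · rintro ⟨B, T⟩ hq
      rw [Finset.mem_coe, Finset.mem_sigma, Set.Finite.mem_toFinset, Finset.mem_powersetCard] at hq
      obtain ⟨⟨⟨h1, h2, h3, h4⟩, hA, -⟩, hT, hc⟩ := hq
      have F := fam_of hT hA
      simp only [Set.Finite.coe_toFinset]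
      refine ⟨?_, ?_, F.chain h3 h4, F.nodup h4⟩
      · rw [F.length h4, h1, hc, hm]
        ring
      · refine F.head h2 (fun p hp => ?_)
        exact (Finset.mem_filter.1 (hT hp)).2.2.1
    · rintro ⟨B, T⟩ hq ⟨B', T'⟩ hq' h
      rw [Finset.mem_coe, Finset.mem_sigma, Set.Finite.mem_toFinset, Finset.mem_powersetCard] at hq
      rw [Finset.mem_coe, Finset.mem_sigma, Set.Finite.mem_toFinset, Finset.mem_powersetCard] at hq'
      obtain ⟨⟨-, hA, -⟩, hT, -⟩ := hq
      obtain ⟨⟨-, hA', -⟩, hT', -⟩ := hq'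
      simp only at h hT hT' hA hA'
      have e1 := recover hT hA
      have e2 := recover hT' hA'
      rw [h, e2] at e1
      subst e1
      have d1 := (fam_of hT hA).decode
      have d2 := (fam_of hT' hA').decode
      rw [h, d2] at d1
      subst d1
      rfl
  have hlow : hSf.toFinset.card * J.choose r ≤
      ((hSf.toFinset).sigma (fun B => (QS A κ c B).powersetCard r)).card := by
    rw [Finset.card_sigma, ← smul_eq_mul]
    refine Finset.card_nsmul_le_sum _ _ _ (fun B hB => ?_)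
    rw [Finset.card_powersetCard]
    rw [Set.Finite.mem_toFinset] at hB
    exact Nat.choose_le_choose r hB.2.2
  have e1 : S.ncard = hSf.toFinset.card := Set.ncard_eq_toFinset_card S hSf
  have e2 : (LS m).ncard = (LS_finite m).toFinset.card := Set.ncard_eq_toFinset_card _ _
  rw [e1]
  refine (hlow.trans hmain).trans ?_
  rw [← e2, hm]
  split_ifs with h
  · rw [mul_comm 2 r, mul_comm r 2]
    exact LS_add n r
  · simp only [zero_mul, add_zero]
    exact Nat.le_mul_of_pos_left _ (by positivity)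

/-- codes -/
noncomputable def codes : Finset (Bool × Pt) :=
  Finset.univ ×ˢ (Finset.Icc (-1) 1 ×ˢ Finset.Icc (-1) 1)

/-- classes -/
noncomputable def classes : Finset Pt := Finset.Ico 0 8 ×ˢ Finset.Ico 0 8

theorem card_cc : (codes ×ˢ classes).card = 1152 := by
  unfold codes classes
  simp

/-- points of `A` far from the origin with a surgery -/
noncomputable def QQ (A : Finset Pt) (B : List Pt) : Finset Pt :=
  A.filter (fun p => far p ∧ ∃ κ x L, Surg B p κ x L)

theorem QQ_card (A : Finset Pt) (B : List Pt) :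
    (QQ A B).card ≤ ∑ q ∈ codes ×ˢ classes, (QS A q.1 q.2 B).card := by
  refine (Finset.card_le_card ?_).trans Finset.card_biUnion_le
  intro p hp
  unfold QQ at hp
  rw [Finset.mem_filter] at hp
  obtain ⟨hA, hf, κ, x, L, hs⟩ := hp
  rw [Finset.mem_biUnion]
  refine ⟨(κ, cls p), ?_, ?_⟩
  · rw [Finset.mem_product]
    constructor
    · unfold codes
      rw [Finset.mem_product, Finset.mem_product, Finset.mem_Icc, Finset.mem_Icc]
      have h1 := abs_le.1 hs.c1
      have h2 := abs_le.1 hs.c2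
      exact ⟨Finset.mem_univ _, h1, h2⟩
    · unfold classes cls
      rw [Finset.mem_product, Finset.mem_Ico, Finset.mem_Ico]
      simp only
      omega
  · unfold QS
    rw [Finset.mem_filter]
    exact ⟨hA, rfl, hf, x, L, hs⟩

theorem choose_ge (k r : ℕ) (hk : 1 ≤ k) : k ^ r ≤ (k * r).choose r := by
  induction r with
  | zero => simp
  | succ r ih =>
    obtain ⟨n, hn⟩ : ∃ n, k * (r + 1) = n + 1 := ⟨k * (r + 1) - 1, by
      have : 1 ≤ k * (r + 1) := Nat.mul_pos hk (Nat.succ_pos r)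
      omega⟩
    have h := Nat.add_one_mul_choose_eq n r
    have hle : k * r ≤ n := by
      have : k * (r + 1) = k * r + k := by ring
      omega
    have h2 : (k * r).choose r ≤ n.choose r := Nat.choose_le_choose r hle
    rw [hn]
    have h3 : k * n.choose r = (n + 1).choose (r + 1) := by
      have h4 : (r + 1) * (k * n.choose r) = (r + 1) * (n + 1).choose (r + 1) := by
        calc (r + 1) * (k * n.choose r) = (k * (r + 1)) * n.choose r := by ring
          _ = (n + 1) * n.choose r := by rw [hn]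
          _ = (n + 1).choose (r + 1) * (r + 1) := h
          _ = _ := by ring
      exact Nat.eq_of_mul_eq_mul_left (Nat.succ_pos r) h4
    rw [← h3, pow_succ, mul_comm]
    exact Nat.mul_le_mul_left _ (ih.trans h2)

/-- **Few walks have many surgeries.** -/
theorem count3 (A : Finset Pt) (r n : ℕ) :
    4 ^ r * ({B | B ∈ LS n ∧ (∀ v ∈ B, v ∈ A → v = 0) ∧ 73728 * r ≤ (QQ A B).card} :
      Set (List Pt)).ncard ≤ 1152 * (LS n).ncard := by
  rcases Nat.eq_zero_or_pos r with hr | hr
  · subst hr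
    rw [pow_zero, one_mul]
    calc _ ≤ (LS n).ncard := Set.ncard_le_ncard (fun B hB => hB.1) (LS_finite n)
      _ ≤ 1152 * (LS n).ncard := by omega
  set U : Bool × Pt → Pt → Set (List Pt) := fun κ c =>
    {B | B ∈ LS n ∧ (∀ v ∈ B, v ∈ A → v = 0) ∧ 64 * r ≤ (QS A κ c B).card} with hU
  have hsub : ({B | B ∈ LS n ∧ (∀ v ∈ B, v ∈ A → v = 0) ∧ 73728 * r ≤ (QQ A B).card} :
      Set (List Pt)) ⊆ ⋃ q ∈ codes ×ˢ classes, U q.1 q.2 := by
    rintro B ⟨h1, h2, h3⟩
    have h4 := h3.trans (QQ_card A B)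
    by_contra hcon
    simp only [Set.mem_iUnion, not_exists, exists_prop] at hcon
    have h5 : ∀ q ∈ codes ×ˢ classes, (QS A q.1 q.2 B).card < 64 * r := by
      intro q hq
      by_contra h
      exact hcon q ⟨hq, h1, h2, by omega⟩
    have h6 : ∑ q ∈ codes ×ˢ classes, (QS A q.1 q.2 B).card < 1152 * (64 * r) := by
      calc _ < ∑ q ∈ codes ×ˢ classes, 64 * r := by
            refine Finset.sum_lt_sum_of_nonempty ?_ h5
            rw [← Finset.card_pos, card_cc]
            norm_num
        _ = 1152 * (64 * r) := by rw [Finset.sum_const, card_cc, smul_eq_mul]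
    omega
  have hUf : ∀ q : (Bool × Pt) × Pt, (U q.1 q.2).Finite := fun q =>
    (LS_finite n).subset (fun B hB => hB.1)
  have h1 : ({B | B ∈ LS n ∧ (∀ v ∈ B, v ∈ A → v = 0) ∧ 73728 * r ≤ (QQ A B).card} :
      Set (List Pt)).ncard ≤ ∑ q ∈ codes ×ˢ classes, (U q.1 q.2).ncard := by
    refine (Set.ncard_le_ncard hsub ?_).trans ?_
    · exact Set.Finite.biUnion (codes ×ˢ classes).finite_toSet (fun q _ => hUf q)
    · have e : (⋃ q ∈ codes ×ˢ classes, U q.1 q.2) =
          (((codes ×ˢ classes).biUnion (fun q => (hUf q).toFinset) : Finset (List Pt)) :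
            Set (List Pt)) := by
        ext B
        simp only [Set.mem_iUnion, exists_prop, Finset.coe_biUnion, Finset.mem_coe,
          Set.Finite.coe_toFinset]
      rw [e, Set.ncard_coe_finset]
      refine Finset.card_biUnion_le.trans (le_of_eq ?_)
      refine Finset.sum_congr rfl (fun q _ => ?_)
      rw [Set.ncard_eq_toFinset_card _ (hUf q)]
  have h2 : ∀ q ∈ codes ×ˢ classes, 4 ^ r * (U q.1 q.2).ncard ≤ (LS n).ncard := by
    intro q _
    have h3 := count1 A q.1 q.2 r (64 * r) n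
    have h4 := choose_ge 64 r (by norm_num)
    have h5 : (U q.1 q.2).ncard * 64 ^ r ≤ 16 ^ r * (LS n).ncard :=
      (Nat.mul_le_mul_left _ h4).trans h3
    have h6 : (64 : ℕ) ^ r = 16 ^ r * 4 ^ r := by rw [← mul_pow]; norm_num
    rw [h6] at h5
    have h7 : 16 ^ r * (4 ^ r * (U q.1 q.2).ncard) ≤ 16 ^ r * (LS n).ncard := by
      calc 16 ^ r * (4 ^ r * (U q.1 q.2).ncard) = (U q.1 q.2).ncard * (16 ^ r * 4 ^ r) := by ring
        _ ≤ _ := h5
    exact Nat.le_of_mul_le_mul_left h7 (by positivity)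
  calc _ ≤ 4 ^ r * ∑ q ∈ codes ×ˢ classes, (U q.1 q.2).ncard := Nat.mul_le_mul_left _ h1
    _ = ∑ q ∈ codes ×ˢ classes, 4 ^ r * (U q.1 q.2).ncard := Finset.mul_sum _ _ _
    _ ≤ ∑ q ∈ codes ×ˢ classes, (LS n).ncard := Finset.sum_le_sum h2
    _ = 1152 * (LS n).ncard := by rw [Finset.sum_const, card_cc, smul_eq_mul]

end Pool.Agent.W840.CT
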