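import Pool.Agent.W840.CT.Split
import Pool.Agent.W387.S.Fin3
import Pool.Agent.H981R2.Plain

/-! # Contacts across a time: tail bounds -/

set_option autoImplicit false

namespace Pool.Agent.W840.CT

open scoped Classical

/-- number of self-avoiding walks -/
noncomputable def cn (n : ℕ) : ℕ := Nat.card {ω : Fin (n + 1) → ℤ × ℤ // SW n ω}

theorem cn_eq (n : ℕ) : (cn n : ℝ) = H981.cr' n := by
  rw [H981.cr'_eq]
  rfl

theorem TT_count (N t r : ℕ) (ht : t ≤ N) :
    4 ^ r * ({ω | SW N ω ∧ 294912 * r + 204 ≤ TT N t ω} :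
      Set (Fin (N + 1) → ℤ × ℤ)).ncard ≤ 1152 * (cn t * cn (N - t)) := by
  calc _ ≤ 4 ^ r * (PP t (N - t) (294912 * r + 204)).ncard :=
        Nat.mul_le_mul_left _ (split_card N t _ ht)
    _ ≤ 1152 * ((LS t).ncard * (LS (N - t)).ncard) := PP_card _ _ _
    _ ≤ 1152 * (cn t * cn (N - t)) :=
        Nat.mul_le_mul_left _ (Nat.mul_le_mul (LS_le _) (LS_le _))

theorem pair_count (n m r : ℕ) :
    4 ^ r * ({q | SW n q.1 ∧ SW m q.2 ∧ DJ q.1 q.2 ∧ 294912 * r + 204 ≤ CC q.1 q.2} :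
      Set ((Fin (n + 1) → ℤ × ℤ) × (Fin (m + 1) → ℤ × ℤ))).ncard ≤ 1152 * (cn n * cn m) := by
  calc _ ≤ 4 ^ r * (PP n m (294912 * r + 204)).ncard :=
        Nat.mul_le_mul_left _ (pair_card n m _)
    _ ≤ 1152 * ((LS n).ncard * (LS m).ncard) := PP_card _ _ _
    _ ≤ 1152 * (cn n * cn m) :=
        Nat.mul_le_mul_left _ (Nat.mul_le_mul (LS_le _) (LS_le _))

theorem SW_finite (n : ℕ) : ({ω | SW n ω} : Set (Fin (n + 1) → ℤ × ℤ)).Finite := by
  have hinj : Set.InjOn (fun ω : Fin (n + 1) → ℤ × ℤ => li ω) {ω | SW n ω} :=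
    fun ω _ ω' _ h => li_inj h
  refine Set.Finite.of_finite_image ?_ hinj
  refine (LS_finite n).subset ?_
  rintro _ ⟨ω, hω, rfl⟩
  exact li_mem hω

theorem cn_pos (n : ℕ) : (1 : ℝ) ≤ cn n := by
  have h1 : 0 < cn n := by
    unfold cn
    have : Finite {ω : Fin (n + 1) → ℤ × ℤ // SW n ω} := (SW_finite n).to_subtype
    have : Nonempty {ω : Fin (n + 1) → ℤ × ℤ // SW n ω} := by
      refine ⟨⟨fun i => ((i.1 : ℤ), 0), ?_, ?_, ?_⟩⟩
      · simp
      · intro i
        simp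
      · intro i j h
        simp only [Prod.mk.injEq, Nat.cast_inj, and_true] at h
        exact Fin.ext h
    exact Nat.card_pos
  exact_mod_cast h1

theorem mu_pos : 0 < H981.mu := Real.exp_pos _

theorem mu_pow_le_cn (n : ℕ) : H981.mu ^ n ≤ cn n := by
  rw [cn_eq]
  exact H981.mu_pow_le n

theorem cn_one : (cn 1 : ℝ) ≤ 4 := by
  have h1 : cn 1 ≤ dirs.card := by
    unfold cn
    rw [← Nat.card_eq_finsetCard dirs]
    refine Nat.card_le_card_of_injective (fun ω => (⟨ω.1 1, ?_⟩ : dirs)) ?_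
    · rw [mem_dirs]
      have h := ω.2.2.1 0
      have h0 := ω.2.1
      have h2 : adj (ω.1 0) (ω.1 1) := h
      rw [adj_iff, h0] at h2
      have h3 : ω.1 1 - ((0, 0) : ℤ × ℤ) = ω.1 1 := sub_zero _
      rw [h3] at h2
      exact h2
    · rintro ⟨ω, hω⟩ ⟨ω', hω'⟩ h
      simp only [Subtype.mk.injEq] at h
      rw [Subtype.mk.injEq]
      funext i
      match i with
      | 0 => rw [hω.1, hω'.1]
      | 1 => exact h
  have h3 : dirs.card = 4 := rfl
  rw [h3] at h1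
  exact_mod_cast h1

/-- uniform upper bound for all lengths up to `N` -/
theorem cn_upper : ∃ K : ℝ, 0 ≤ K ∧ ∀ N : ℕ, 2 ≤ N → ∀ k ≤ N,
    (cn k : ℝ) ≤ H981.mu ^ k * Real.exp (K * Real.log N ^ 3) := by
  obtain ⟨K, hK, h⟩ := Pool.Agent.W387.S.sq_upper3
  have hmu1 : 1 ≤ H981.mu := by
    by_contra hcon
    push Not at hcon
    have h1 := cn_pos 1
    have hlim : Filter.Tendsto (fun n : ℕ => H981.cr' n ^ (1 / (n : ℝ))) Filter.atTop
      (nhds H981.mu) := H981.tendsto_root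
    have : (1 : ℝ) ≤ H981.mu := by
      refine ge_of_tendsto' hlim (fun n => ?_)
      have h2 := cn_pos n
      rw [cn_eq] at h2
      exact Real.one_le_rpow h2 (by positivity)
    linarith
  have hlog2 : (0.69 : ℝ) < Real.log 2 := by
    have := Real.log_two_gt_d9
    linarith
  refine ⟨K + 5, by linarith, fun N hN k hk => ?_⟩
  have hN' : (2 : ℝ) ≤ N := by exact_mod_cast hN
  have hlogN : Real.log 2 ≤ Real.log N := Real.log_le_log (by norm_num) hN'
  have hL : (0.3 : ℝ) ≤ Real.log N ^ 3 := by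
    have h1 : (0.69 : ℝ) ^ 3 ≤ Real.log N ^ 3 := by
      refine pow_le_pow_left₀ (by norm_num) (by linarith) 3
    have h2 : (0.3 : ℝ) ≤ (0.69 : ℝ) ^ 3 := by norm_num
    linarith
  have hK0 : 0 ≤ K * Real.log N ^ 3 := by positivity
  have hmuk : 1 ≤ H981.mu ^ k := one_le_pow₀ hmu1
  have hexp1 : (4 : ℝ) ≤ Real.exp ((K + 5) * Real.log N ^ 3) := by
    have h1 : (1.5 : ℝ) ≤ (K + 5) * Real.log N ^ 3 := by nlinarith
    have h2 : (4 : ℝ) ≤ Real.exp 1.5 := by
      have h3 : (2.7182818283 : ℝ) < Real.exp 1 := Real.exp_one_gt_d9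
      have h4 : Real.exp 1.5 = Real.exp 1 * Real.exp 0.5 := by rw [← Real.exp_add]; norm_num
      have h5 : (0.5 : ℝ) + 1 ≤ Real.exp 0.5 := Real.add_one_le_exp _
      rw [h4]
      nlinarith
    exact h2.trans (Real.exp_le_exp.2 h1)
  rcases Nat.lt_or_ge k 2 with hk2 | hk2
  · have h4 : (cn k : ℝ) ≤ 4 := by
      interval_cases k
      · have h5 : cn 0 ≤ 1 := by
          unfold cn
          have : Subsingleton {ω : Fin (0 + 1) → ℤ × ℤ // SW 0 ω} := by
            refine ⟨fun a b => Subtype.ext ?_⟩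
            funext i
            have hi : i = 0 := Fin.ext (by have := i.2; simp only [Fin.val_zero]; omega)
            rw [hi, a.2.1, b.2.1]
          exact Finite.card_le_one_iff_subsingleton.2 this
        have h6 : (cn 0 : ℝ) ≤ 1 := by exact_mod_cast h5
        linarith
      · exact cn_one
    calc (cn k : ℝ) ≤ 4 := h4
      _ ≤ 1 * Real.exp ((K + 5) * Real.log N ^ 3) := by rw [one_mul]; exact hexp1
      _ ≤ _ := mul_le_mul_of_nonneg_right hmuk (Real.exp_pos _).le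
  · have h5 := h k hk2
    rw [← cn_eq] at h5
    refine h5.trans (mul_le_mul_of_nonneg_left ?_ (by positivity))
    rw [Real.exp_le_exp]
    have hk' : (2 : ℝ) ≤ k := by exact_mod_cast hk2
    have h6 : Real.log k ≤ Real.log N := Real.log_le_log (by linarith) (by exact_mod_cast hk)
    have h7 : 0 ≤ Real.log k := Real.log_nonneg (by linarith)
    have h8 : Real.log k ^ 3 ≤ Real.log N ^ 3 := pow_le_pow_left₀ h7 h6 3
    nlinarith

/-- contacts at distance more than `m` along the walk -/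
noncomputable def FF (N m : ℕ) (ω : Fin (N + 1) → ℤ × ℤ) : ℕ :=
  ((Finset.univ : Finset (Fin (N + 1) × Fin (N + 1))).filter
    (fun q => q.1.1 + m < q.2.1 ∧ adj (ω q.1) (ω q.2))).card

theorem FF_le (N m : ℕ) (hm : 1 ≤ m) (ω : Fin (N + 1) → ℤ × ℤ) {J : ℝ}
    (h : ∀ t, (TT N t ω : ℝ) ≤ J) : (FF N m ω : ℝ) ≤ N / m * J := by
  have hJ : 0 ≤ J := (Nat.cast_nonneg _).trans (h 0)
  have hsub : ((Finset.univ : Finset (Fin (N + 1) × Fin (N + 1))).filter
      (fun q => q.1.1 + m < q.2.1 ∧ adj (ω q.1) (ω q.2))) ⊆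
      (Finset.Icc 1 (N / m)).biUnion (fun k =>
        (Finset.univ : Finset (Fin (N + 1) × Fin (N + 1))).filter
          (fun q => q.1.1 < k * m ∧ k * m < q.2.1 ∧ adj (ω q.1) (ω q.2))) := by
    rintro ⟨i, j⟩ hq
    simp only [Finset.mem_filter, Finset.mem_univ, true_and] at hq
    rw [Finset.mem_biUnion]
    have h1 : i.1 < (i.1 / m + 1) * m := by
      rw [mul_comm]
      exact Nat.lt_mul_div_succ i.1 hm
    have h2 : (i.1 / m + 1) * m ≤ i.1 + m := by
      have := Nat.div_mul_le_self i.1 m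
      rw [add_mul, one_mul]
      omega
    have hj := j.2
    refine ⟨i.1 / m + 1, ?_, ?_⟩
    · rw [Finset.mem_Icc]
      refine ⟨Nat.succ_le_succ (Nat.zero_le _), ?_⟩
      rw [Nat.le_div_iff_mul_le hm]
      omega
    · simp only [Finset.mem_filter, Finset.mem_univ, true_and]
      exact ⟨h1, by omega, hq.2⟩
  have h1 : FF N m ω ≤ ∑ k ∈ Finset.Icc 1 (N / m), TT N (k * m) ω :=
    (Finset.card_le_card hsub).trans Finset.card_biUnion_le
  have h2 : (FF N m ω : ℝ) ≤ ∑ k ∈ Finset.Icc 1 (N / m), (TT N (k * m) ω : ℝ) := by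
    exact_mod_cast h1
  have h3 : ∑ k ∈ Finset.Icc 1 (N / m), (TT N (k * m) ω : ℝ) ≤
      ∑ _k ∈ Finset.Icc 1 (N / m), J := Finset.sum_le_sum (fun k _ => h (k * m))
  rw [Finset.sum_const, Nat.card_Icc, nsmul_eq_mul] at h3
  have h4 : (((N / m + 1 - 1 : ℕ)) : ℝ) ≤ N / m := by
    rw [Nat.add_sub_cancel]
    exact Nat.cast_div_le
  exact h2.trans (h3.trans (mul_le_mul_of_nonneg_right h4 hJ))

end Pool.Agent.W840.CT
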