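import Pool.Agent.W840.CT.Basic

/-! # Existence of a surgery near a contact -/

set_option autoImplicit false

namespace Pool.Agent.W840.CT

theorem un_neg {f : Pt} (h : Un f) : Un (-f) := by
  rcases h with h | h | h | h <;> subst h <;> simp [Un]

/-- the four directions -/
def P4 (s g : Pt) : Prop := ∀ δ : Pt, Un δ → δ = s ∨ δ = -s ∨ δ = g ∨ δ = -g

theorem exists_perp {s : Pt} (h : Un s) : ∃ g, Un g ∧ P4 s g := by
  rcases h with h | h | h | h <;> subst h
  · exact ⟨(0, 1), by simp [Un], fun δ hδ => by simpa [Un] using hδ⟩
  · refine ⟨(0, 1), by simp [Un], fun δ hδ => ?_⟩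
    have : δ = (1, 0) ∨ δ = (-1, 0) ∨ δ = (0, 1) ∨ δ = (0, -1) := hδ
    rcases this with h | h | h | h <;> subst h <;> simp
  · refine ⟨(1, 0), by simp [Un], fun δ hδ => ?_⟩
    have : δ = (1, 0) ∨ δ = (-1, 0) ∨ δ = (0, 1) ∨ δ = (0, -1) := hδ
    rcases this with h | h | h | h <;> subst h <;> simp
  · refine ⟨(1, 0), by simp [Un], fun δ hδ => ?_⟩
    have : δ = (1, 0) ∨ δ = (-1, 0) ∨ δ = (0, 1) ∨ δ = (0, -1) := hδ
    rcases this with h | h | h | h <;> subst h <;> simp

theorem un_bound {f : Pt} (h : Un f) : |f.1| + |f.2| = 1 := by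
  rcases h with h | h | h | h <;> subst h <;> norm_num

theorem adj_add {p f : Pt} (h : Un f) : adj p (p + f) := by
  rw [adj_iff]
  simpa using h

/-- two different neighbours along `B` of `v`, none of them in the direction `-s`:
one of them is in the direction `g` or `-g` -/
theorem side {B : List Pt} (hB : B.IsChain adj) (hn : B.Nodup) {v s g z w : Pt} (h4 : P4 s g)
    (hz : Con B z v) (hw : Con B v w) (hz' : z ≠ v - s) (hw' : w ≠ v - s) :
    Nb B v (v + g) ∨ Nb B v (v - g) := by
  have ez : z = v + (z - v) := by abel
  have ew : w = v + (w - v) := by abel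
  have uz : Un (z - v) := adj_iff.1 (adj_comm (hz.adj hB))
  have uw : Un (w - v) := adj_iff.1 (hw.adj hB)
  have hzw : z ≠ w := hz.ne hn hw
  have nz : z - v ≠ -s := by
    intro h
    apply hz'
    rw [ez, h, sub_eq_add_neg]
  have nw : w - v ≠ -s := by
    intro h
    apply hw'
    rw [ew, h, sub_eq_add_neg]
  rcases h4 _ uz with h | h | h | h
  · rcases h4 _ uw with h' | h' | h' | h'
    · exact absurd (by rw [ez, ew, h, h']) hzw
    · exact absurd h' nw
    · left
      left
      rw [← h', ← ew]
      exact hw
    · right
      left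
      rw [sub_eq_add_neg, ← h', ← ew]
      exact hw
  · exact absurd h nz
  · left
    right
    rw [← h, ← ez]
    exact hz
  · right
    right
    rw [sub_eq_add_neg, ← h, ← ez]
    exact hz

/-- **Local surgery.** -/
theorem loc {B : List Pt} (hB : B.IsChain adj) (hn : B.Nodup) {A : Set Pt} {p : Pt} (hp : p ∈ A)
    {p1 p2 : Pt} (h1 : p1 ∈ A) (h2 : p2 ∈ A) (h12 : p1 ≠ p2) (a1 : adj p p1) (a2 : adj p p2)
    {v : Pt} (hv : v ∈ B) (av : adj p v)
    (hint : ∀ u ∈ B, |u.1 - p.1| ≤ 2 → |u.2 - p.2| ≤ 2 →
      (∃ z w, Con B z u ∧ Con B u w) ∧ u ∉ A) :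
    ∃ κ x L, Surg B p κ x L := by
  have hpB : p ∉ B := fun h => (hint p h (by simp) (by simp)).2 hp
  have near : ∀ f : Pt, |f.1| + |f.2| ≤ 2 → |(p + f).1 - p.1| ≤ 2 ∧ |(p + f).2 - p.2| ≤ 2 := by
    intro f hf
    have e1 : (p + f).1 - p.1 = f.1 := by simp
    have e2 : (p + f).2 - p.2 = f.2 := by simp
    rw [e1, e2]
    have := abs_nonneg f.1
    have := abs_nonneg f.2
    omega
  have us : Un (v - p) := adj_iff.1 av
  obtain ⟨s, hs⟩ : ∃ s, s = v - p := ⟨_, rfl⟩
  have ev : v = p + s := by rw [hs]; abel
  rw [← hs] at us
  obtain ⟨g0, ug0, h40⟩ := exists_perp us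
  -- the direction `g`
  obtain ⟨g, ug, h4, hnb⟩ : ∃ g, Un g ∧ P4 s g ∧ Nb B (p + s) (p + s + g) := by
    obtain ⟨⟨z, w, hz, hw⟩, -⟩ := hint v hv (by rw [ev]; exact (near s (by
      have := un_bound us; omega)).1) (by rw [ev]; exact (near s (by
      have := un_bound us; omega)).2)
    rw [ev] at hz hw
    have e : p + s - s = p := by abel
    have hz' : z ≠ p + s - s := by
      rw [e]
      rintro rfl
      exact hpB hz.mem_left
    have hw' : w ≠ p + s - s := by
      rw [e]
      rintro rfl
      exact hpB hw.mem_right
    rcases side hB hn h40 hz hw hz' hw' with h | h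
    · exact ⟨g0, ug0, h40, h⟩
    · refine ⟨-g0, un_neg ug0, fun δ hδ => ?_, by rw [← sub_eq_add_neg]; exact h⟩
      rcases h40 δ hδ with h | h | h | h
      · exact Or.inl h
      · exact Or.inr (Or.inl h)
      · right; right; right; rw [h, neg_neg]
      · right; right; left; exact h
  by_cases hq : p + g ∈ B
  · have nq := near g (by have := un_bound ug; omega)
    obtain ⟨⟨z, w, hz, hw⟩, hqA⟩ := hint _ hq nq.1 nq.2
    have hvA : p + s ∉ A := by
      have ns := near s (by have := un_bound us; omega)
      rw [← ev] at ns ⊢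
      exact (hint v hv ns.1 ns.2).2
    have hpA : p - s ∈ A := by
      have e1 : p1 = p + (p1 - p) := by abel
      have e2 : p2 = p + (p2 - p) := by abel
      have u1 : Un (p1 - p) := adj_iff.1 a1
      have u2 : Un (p2 - p) := adj_iff.1 a2
      rw [sub_eq_add_neg]
      rcases h4 _ u1 with h | h | h | h
      · exact absurd (by rw [← h, ← e1]; exact h1) hvA
      · rw [← h, ← e1]; exact h1
      · exact absurd (by rw [← h, ← e1]; exact h1) hqA
      · rcases h4 _ u2 with h' | h' | h' | h'
        · exact absurd (by rw [← h', ← e2]; exact h2) hvA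
        · rw [← h', ← e2]; exact h2
        · exact absurd (by rw [← h', ← e2]; exact h2) hqA
        · exact absurd (by rw [e1, e2, h, h']) h12
    by_cases hf : Nb B (p + g) (p + s + g)
    · -- flip
      obtain ⟨L, hL⟩ := surg_flip (x := p + s + g) hn hnb hf.symm (by
        intro h
        have : s = g := by
          have := congrArg (fun t => t - p) h
          simpa using this
        subst this
        rcases h4 (s.2, s.1) (by
          rcases us with h | h | h | h <;> rw [h] <;> simp [Un]) with h | h | h | h <;>
        rcases us with h' | h' | h' | h' <;> rw [h'] at h <;> simp at h) hpB (adj_add us)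
        (adj_add ug) (by
          have e : (p + s + g).1 - p.1 = s.1 + g.1 := by simp; ring
          rw [e]
          have h5 := h4
          rcases us with h | h | h | h <;> rcases ug with h' | h' | h' | h' <;>
            rw [h, h'] <;> norm_num <;>
          · exfalso
            rw [h, h'] at h5
            have := h5 (0, 1) (by simp [Un])
            simp at this) (by
          have e : (p + s + g).2 - p.2 = s.2 + g.2 := by simp; ring
          rw [e]
          have h5 := h4
          rcases us with h | h | h | h <;> rcases ug with h' | h' | h' | h' <;>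
            rw [h, h'] <;> norm_num <;>
          · exfalso
            rw [h, h'] at h5
            have := h5 (1, 0) (by simp [Un])
            simp at this)
      exact ⟨_, _, L, hL⟩
    · -- detour through `p` and `p - s`
      have hpsB : p + -s ∉ B := by
        intro h
        have n := near (-s) (by
          have := un_bound (un_neg us)
          omega)
        rw [← sub_eq_add_neg] at h n
        exact (hint _ h n.1 n.2).2 hpA
      have e : p + g - g = p := by abel
      have hz' : z ≠ p + g - g := by
        rw [e]
        rintro rfl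
        exact hpB hz.mem_left
      have hw' : w ≠ p + g - g := by
        rw [e]
        rintro rfl
        exact hpB hw.mem_right
      have h4' : P4 g s := by
        intro δ hδ
        rcases h4 δ hδ with h | h | h | h
        · exact Or.inr (Or.inr (Or.inl h))
        · exact Or.inr (Or.inr (Or.inr h))
        · exact Or.inl h
        · exact Or.inr (Or.inl h)
      have hnb' : Nb B (p + g) (p + g + -s) := by
        rcases side hB hn h4' hz hw hz' hw' with h | h
        · exact absurd (by rw [show p + s + g = p + g + s by abel]; exact h) hf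
        · rw [← sub_eq_add_neg]; exact h
      obtain ⟨x, L, hL⟩ := surg_det hB hn hnb' hpB hpsB (un_neg us) (adj_add ug) (by
        rw [show p + g + -s = p + -s + g by abel]
        exact adj_add ug)
      exact ⟨_, x, L, hL⟩
  · obtain ⟨x, L, hL⟩ := surg_det hB hn hnb hpB hq ug (adj_add us) (by
      rw [show p + s + g = p + g + s by abel]
      exact adj_add us)
    exact ⟨_, x, L, hL⟩

end Pool.Agent.W840.CT
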