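import Pool.Agent.W840.CT.Basic

/-! # Simultaneous surgeries and their decoding -/

set_option autoImplicit false

namespace Pool.Agent.W840.CT

open scoped Classical

/-- the point of `B` replaced by the surgery at `p` -/
noncomputable def X (B : List Pt) (κ : Bool × Pt) (p : Pt) : Pt :=
  if h : ∃ x L, Surg B p κ x L then h.choose else 0

/-- the list inserted by the surgery at `p` -/
noncomputable def Lf (B : List Pt) (κ : Bool × Pt) (p : Pt) : List Pt :=
  if h : ∃ L, Surg B p κ (X B κ p) L then h.choose else [0]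

theorem surg_spec {B : List Pt} {κ : Bool × Pt} {p : Pt} (h : ∃ x L, Surg B p κ x L) :
    Surg B p κ (X B κ p) (Lf B κ p) := by
  have h1 : ∃ L, Surg B p κ (X B κ p) L := by
    unfold X
    rw [dif_pos h]
    exact h.choose_spec
  unfold Lf
  rw [dif_pos h1]
  exact h1.choose_spec

/-- a family of separated surgeries -/
structure Fam (B : List Pt) (A : Finset Pt) (κ : Bool × Pt) (T : Finset Pt) : Prop where
  sur : ∀ p ∈ T, ∃ x L, Surg B p κ x L
  sep : ∀ p ∈ T, ∀ p' ∈ T, p ≠ p' → 8 ≤ |p.1 - p'.1| ∨ 8 ≤ |p.2 - p'.2|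
  sub : T ⊆ A
  avo : ∀ v ∈ B, v ∈ A → v = 0

/-- what is emitted at `x` -/
noncomputable def em (B : List Pt) (κ : Bool × Pt) (T : Finset Pt) (x : Pt) : List Pt :=
  if h : ∃ p ∈ T, X B κ p = x then Lf B κ h.choose else [x]

/-- the new walk -/
noncomputable def nw (B : List Pt) (κ : Bool × Pt) (T : Finset Pt) : List Pt :=
  B.flatMap (em B κ T)

/-- decoding -/
noncomputable def gd (κ : Bool × Pt) (T : Finset Pt) (v : Pt) : Option Pt :=
  if κ.1 = true then (if v ∈ T ∨ v - κ.2 ∈ T then none else some v)
  else (if v ∈ T then some (v + κ.2) else some v)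

section
variable {B : List Pt} {A : Finset Pt} {κ : Bool × Pt} {T : Finset Pt}

theorem Fam.sp (F : Fam B A κ T) {p : Pt} (hp : p ∈ T) : Surg B p κ (X B κ p) (Lf B κ p) :=
  surg_spec (F.sur p hp)

/-- points within distance two of two points of the family -/
theorem Fam.eq_of_near (F : Fam B A κ T) {p p' : Pt} (hp : p ∈ T) (hp' : p' ∈ T)
    (h1 : |p.1 - p'.1| < 8) (h2 : |p.2 - p'.2| < 8) : p = p' := by
  by_contra h
  rcases F.sep p hp p' hp' h with h | h <;> omega

theorem Fam.X_inj (F : Fam B A κ T) {p p' : Pt} (hp : p ∈ T) (hp' : p' ∈ T)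
    (h : X B κ p = X B κ p') : p = p' := by
  have s := F.sp hp
  have s' := F.sp hp'
  have a := s.d1
  have b := s.d2
  have a' := s'.d1
  have b' := s'.d2
  rw [h] at a b
  refine F.eq_of_near hp hp' ?_ ?_ <;> rw [abs_lt] <;> rw [abs_le] at * <;> omega

theorem Fam.em_X (F : Fam B A κ T) {p : Pt} (hp : p ∈ T) : em B κ T (X B κ p) = Lf B κ p := by
  have h : ∃ p' ∈ T, X B κ p' = X B κ p := ⟨p, hp, rfl⟩
  unfold em
  rw [dif_pos h]
  rw [F.X_inj h.choose_spec.1 hp h.choose_spec.2]

theorem em_other {x : Pt} (h : ¬ ∃ p ∈ T, X B κ p = x) : em B κ T x = [x] := by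
  unfold em
  rw [dif_neg h]

/-- elements of `Lf` -/
theorem Fam.mem_Lf (F : Fam B A κ T) {p : Pt} (hp : p ∈ T) {v : Pt} (hv : v ∈ Lf B κ p) :
    v = X B κ p ∨ v = p ∨ (κ.1 = true ∧ v = p + κ.2) := by
  rcases (F.sp hp).sh with ⟨h0, h | h⟩ | ⟨h0, h1, h⟩ <;> rw [h] at hv <;>
    simp only [List.mem_cons, List.not_mem_nil, or_false] at hv
  · rcases hv with h | h | h
    · exact Or.inl h
    · exact Or.inr (Or.inl h)
    · exact Or.inr (Or.inr ⟨h0, h⟩)
  · rcases hv with h | h | h
    · exact Or.inl h
    · exact Or.inr (Or.inr ⟨h0, h⟩)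
    · exact Or.inr (Or.inl h)
  · exact Or.inr (Or.inl hv)

theorem Fam.p_mem_Lf (F : Fam B A κ T) {p : Pt} (hp : p ∈ T) : p ∈ Lf B κ p := by
  rcases (F.sp hp).sh with ⟨h0, h | h⟩ | ⟨h0, h1, h⟩ <;> rw [h] <;> simp

theorem Fam.Lf_ne (F : Fam B A κ T) {p : Pt} (hp : p ∈ T) : Lf B κ p ≠ [] :=
  List.ne_nil_of_mem (F.p_mem_Lf hp)

/-- elements of the new walk -/
theorem Fam.mem_nw (F : Fam B A κ T) {v : Pt} (hv : v ∈ nw B κ T) :
    v ∈ B ∨ ∃ p ∈ T, v = p ∨ (κ.1 = true ∧ v = p + κ.2) := by
  unfold nw at hv
  rw [List.mem_flatMap] at hv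
  obtain ⟨x, hx, hv⟩ := hv
  by_cases h : ∃ p ∈ T, X B κ p = x
  · obtain ⟨p, hp, rfl⟩ := h
    rw [F.em_X hp] at hv
    rcases F.mem_Lf hp hv with h | h
    · rw [h]; exact Or.inl hx
    · exact Or.inr ⟨p, hp, h⟩
  · rw [em_other h, List.mem_singleton] at hv
    rw [hv]; exact Or.inl hx

theorem Fam.p_mem_nw (F : Fam B A κ T) {p : Pt} (hp : p ∈ T) : p ∈ nw B κ T := by
  unfold nw
  rw [List.mem_flatMap]
  exact ⟨X B κ p, (F.sp hp).mx, by rw [F.em_X hp]; exact F.p_mem_Lf hp⟩

/-- new points are not in `B` -/
theorem Fam.not_mem_of (F : Fam B A κ T) {p v : Pt} (hp : p ∈ T)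
    (h : v = p ∨ (κ.1 = true ∧ v = p + κ.2)) : v ∉ B := by
  rcases h with h | ⟨h0, h⟩ <;> rw [h]
  · exact (F.sp hp).np
  · exact (F.sp hp).nq h0

/-- **Decoding.** -/
theorem Fam.decode (F : Fam B A κ T) : (nw B κ T).filterMap (gd κ T) = B := by
  unfold nw
  rw [List.filterMap_flatMap]
  have h : ∀ x ∈ B, (em B κ T x).filterMap (gd κ T) = [x] := by
    intro x hx
    have hxT : x ∉ T := fun h => (F.sp h).np hx
    have hxq : κ.1 = true → x - κ.2 ∉ T := by
      intro h0 h
      have := (F.sp h).nq h0
      rw [sub_add_cancel] at this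
      exact this hx
    have gx : gd κ T x = some x := by
      unfold gd
      by_cases h0 : κ.1 = true
      · rw [if_pos h0, if_neg]
        rintro (h | h)
        · exact hxT h
        · exact hxq h0 h
      · rw [if_neg h0, if_neg hxT]
    by_cases h : ∃ p ∈ T, X B κ p = x
    · obtain ⟨p, hp, rfl⟩ := h
      rw [F.em_X hp]
      rcases (F.sp hp).sh with ⟨h0, h⟩ | ⟨h0, h1, h⟩
      · have gp : gd κ T p = none := by
          unfold gd
          rw [if_pos h0, if_pos (Or.inl hp)]
        have gq : gd κ T (p + κ.2) = none := by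
          unfold gd
          rw [if_pos h0, if_pos]
          right
          rw [add_sub_cancel_right]
          exact hp
        rcases h with h | h <;> rw [h] <;> simp [gx, gp, gq]
      · have gp : gd κ T p = some (p + κ.2) := by
          unfold gd
          rw [if_neg (by rw [h0]; simp), if_pos hp]
        rw [h]
        simp [gp, h1]
    · rw [em_other h]
      simp [gx]
  have h2 : B.flatMap (fun a => (em B κ T a).filterMap (gd κ T)) = B.flatMap (fun a => [a]) := by
    rw [List.flatMap_def, List.flatMap_def]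
    congr 1
    exact List.map_congr_left h
  rw [h2]
  simp

theorem Fam.nodup (F : Fam B A κ T) (hn : B.Nodup) : (nw B κ T).Nodup := by
  unfold nw
  rw [List.nodup_flatMap]
  constructor
  · intro x hx
    by_cases h : ∃ p ∈ T, X B κ p = x
    · obtain ⟨p, hp, rfl⟩ := h
      rw [F.em_X hp]
      have s := F.sp hp
      have h1 : X B κ p ≠ p := fun h => s.np (h ▸ s.mx)
      rcases s.sh with ⟨h0, h | h⟩ | ⟨h0, h1, h⟩ <;> rw [h]
      · have h2 : X B κ p ≠ p + κ.2 := fun h => s.nq h0 (h ▸ s.mx)
        have h3 : p ≠ p + κ.2 := by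
          intro h
          have : κ.2 = 0 := by simpa using h
          rcases s.un h0 with h | h | h | h <;> rw [h] at this <;> simp at this
        simp [h1, h2, h3]
      · have h2 : X B κ p ≠ p + κ.2 := fun h => s.nq h0 (h ▸ s.mx)
        have h3 : p + κ.2 ≠ p := by
          intro h
          have : κ.2 = 0 := by simpa using h
          rcases s.un h0 with h | h | h | h <;> rw [h] at this <;> simp at this
        simp [h1, h2, h3]
      · simp
    · rw [em_other h]
      simp
  · refine hn.pairwise_of_forall_ne ?_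
    intro x hx y hy hxy
    rw [Function.onFun, List.disjoint_left]
    intro v hv hv'
    by_cases h : ∃ p ∈ T, X B κ p = x
    · obtain ⟨p, hp, rfl⟩ := h
      rw [F.em_X hp] at hv
      have s := F.sp hp
      by_cases h' : ∃ p' ∈ T, X B κ p' = y
      · obtain ⟨p', hp', rfl⟩ := h'
        rw [F.em_X hp'] at hv'
        have s' := F.sp hp'
        apply hxy
        have near : ∀ (q : Pt), q ∈ T → ∀ u, u = X B κ q ∨ u = q ∨ (κ.1 = true ∧ u = q + κ.2) →
            |u.1 - q.1| ≤ 2 ∧ |u.2 - q.2| ≤ 2 := by
          intro q hq u hu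
          have sq := F.sp hq
          rcases hu with h | h | ⟨h0, h⟩
          · rw [h]; exact ⟨sq.d1, sq.d2⟩
          · rw [h]; simp
          · rw [h]
            have e1 : (q + κ.2).1 - q.1 = κ.2.1 := by simp
            have e2 : (q + κ.2).2 - q.2 = κ.2.2 := by simp
            rw [e1, e2]
            have := sq.c1
            have := sq.c2
            omega
        have n1 := near p hp v (F.mem_Lf hp hv)
        have n2 := near p' hp' v (F.mem_Lf hp' hv')
        have : p = p' := by
          refine F.eq_of_near hp hp' ?_ ?_ <;> rw [abs_lt] <;> rw [abs_le, abs_le] at n1 n2 <;>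
            omega
        rw [this]
      · rw [em_other h', List.mem_singleton] at hv'
        subst hv'
        rcases F.mem_Lf hp hv with h | h
        · exact hxy h.symm
        · exact F.not_mem_of hp h hy
    · rw [em_other h, List.mem_singleton] at hv
      subst hv
      by_cases h' : ∃ p' ∈ T, X B κ p' = y
      · obtain ⟨p', hp', rfl⟩ := h'
        rw [F.em_X hp'] at hv'
        rcases F.mem_Lf hp' hv' with h | h
        · exact hxy h
        · exact F.not_mem_of hp' h hx
      · rw [em_other h', List.mem_singleton] at hv'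
        exact hxy hv'

theorem Fam.chain (F : Fam B A κ T) (hB : B.IsChain adj) (hn : B.Nodup) :
    (nw B κ T).IsChain adj := by
  unfold nw
  rw [List.flatMap_def, List.isChain_flatten]
  · constructor
    · intro l hl
      rw [List.mem_map] at hl
      obtain ⟨x, hx, rfl⟩ := hl
      by_cases h : ∃ p ∈ T, X B κ p = x
      · obtain ⟨p, hp, rfl⟩ := h
        rw [F.em_X hp]
        exact (F.sp hp).ch
      · rw [em_other h]
        exact List.IsChain.singleton _
    · rw [List.isChain_map, List.isChain_iff_getElem]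
      intro i hi
      have hc : Con B B[i] B[i + 1] := ⟨i, hi, rfl, rfl⟩
      have ha := hc.adj hB
      intro u hu w hw
      by_cases h : ∃ p ∈ T, X B κ p = B[i]
      · obtain ⟨p, hp, hx⟩ := h
        have s := F.sp hp
        by_cases h' : ∃ p' ∈ T, X B κ p' = B[i + 1]
        · exfalso
          obtain ⟨p', hp', hx'⟩ := h'
          have s' := F.sp hp'
          have d := s.d1
          have e := s.d2
          have d' := s'.d1
          have e' := s'.d2
          rw [hx] at d e
          rw [hx'] at d' e'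
          have : p = p' := by
            have ha' : |B[i + 1].1 - B[i].1| + |B[i + 1].2 - B[i].2| = 1 := ha
            have a1 : |B[i + 1].1 - B[i].1| ≤ 1 := by
              have := abs_nonneg (B[i + 1].2 - B[i].2)
              omega
            have a2 : |B[i + 1].2 - B[i].2| ≤ 1 := by
              have := abs_nonneg (B[i + 1].1 - B[i].1)
              omega
            refine F.eq_of_near hp hp' ?_ ?_ <;> rw [abs_lt] <;>
              rw [abs_le] at a1 a2 d e d' e' <;> omega
          rw [this, hx'] at hx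
          have := (hn.getElem_inj_iff).1 hx
          omega
        · rw [em_other h'] at hw
          simp only [List.head?_cons, Option.mem_def, Option.some.injEq] at hw
          subst hw
          rw [← hx, F.em_X hp] at hu
          rw [← hx] at hc
          exact s.su _ hc u hu
      · rw [em_other h] at hu
        simp only [List.getLast?_singleton, Option.mem_def, Option.some.injEq] at hu
        subst hu
        by_cases h' : ∃ p' ∈ T, X B κ p' = B[i + 1]
        · obtain ⟨p', hp', hx'⟩ := h'
          rw [← hx', F.em_X hp'] at hw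
          rw [← hx'] at hc
          exact (F.sp hp').pr _ hc w hw
        · rw [em_other h'] at hw
          simp only [List.head?_cons, Option.mem_def, Option.some.injEq] at hw
          subst hw
          exact ha
  · rw [List.mem_map]
    rintro ⟨x, hx, h1⟩
    by_cases h : ∃ p ∈ T, X B κ p = x
    · obtain ⟨p, hp, rfl⟩ := h
      rw [F.em_X hp] at h1
      exact F.Lf_ne hp h1
    · rw [em_other h] at h1
      simp at h1

theorem Fam.length (F : Fam B A κ T) (hn : B.Nodup) :
    (nw B κ T).length = B.length + (if κ.1 = true then 2 else 0) * T.card := by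
  unfold nw
  rw [List.length_flatMap]
  have h1 : ∀ x ∈ B, (em B κ T x).length =
      1 + (if x ∈ T.image (X B κ) then (if κ.1 = true then 2 else 0) else 0) := by
    intro x hx
    by_cases h : ∃ p ∈ T, X B κ p = x
    · rw [if_pos (by rw [Finset.mem_image]; exact h)]
      obtain ⟨p, hp, rfl⟩ := h
      rw [F.em_X hp]
      rcases (F.sp hp).sh with ⟨h0, h | h⟩ | ⟨h0, h1, h⟩ <;> rw [h, h0] <;> simp
    · rw [em_other h, if_neg (by rw [Finset.mem_image]; exact h)]
      simp
  rw [List.map_congr_left h1]
  rw [← List.sum_toFinset _ hn, Finset.sum_add_distrib, ← Finset.sum_filter, Finset.sum_const,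
    Finset.sum_const, List.toFinset_card_of_nodup hn]
  have h2 : (B.toFinset.filter (fun x => x ∈ T.image (X B κ))) = T.image (X B κ) := by
    ext x
    simp only [Finset.mem_filter, List.mem_toFinset, Finset.mem_image, and_iff_right_iff_imp,
      forall_exists_index, and_imp]
    rintro p hp rfl
    exact (F.sp hp).mx
  rw [h2, Finset.card_image_of_injOn (fun p hp p' hp' h => F.X_inj hp hp' h)]
  simp [mul_comm]

theorem Fam.head (F : Fam B A κ T) (h0 : B.head? = some 0)
    (hfar : ∀ p ∈ T, 3 ≤ |p.1| ∨ 3 ≤ |p.2|) : (nw B κ T).head? = some 0 := by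
  obtain ⟨l, rfl⟩ : ∃ l, B = 0 :: l := by
    cases B with
    | nil => simp at h0
    | cons a l =>
      simp only [List.head?_cons, Option.some.injEq] at h0
      exact ⟨l, by rw [h0]⟩
  unfold nw
  rw [List.flatMap_cons]
  have h : ¬ ∃ p ∈ T, X (0 :: l) κ p = 0 := by
    rintro ⟨p, hp, hx⟩
    have s := F.sp hp
    have d := s.d1
    have e := s.d2
    rw [hx] at d e
    simp only [Prod.fst_zero, Prod.snd_zero, zero_sub, abs_neg] at d e
    rcases hfar p hp with h | h <;> omega
  rw [em_other h]
  simp

end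

end Pool.Agent.W840.CT
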