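import Pool.Agent.W840.CT.Tail

/-! # Contacts of two disjoint walks, conditionally on disjointness -/

set_option autoImplicit false

namespace Pool.Agent.W840.CT

open scoped Classical

/-- walk from a function on `ℕ` -/
theorem SW_of {n : ℕ} {g : ℕ → Pt} (h0 : g 0 = 0) (hs : ∀ i, i < n → adj (g i) (g (i + 1)))
    (hi : ∀ i j, i ≤ n → j ≤ n → g i = g j → i = j) : SW n (fun i => g i.1) := by
  refine ⟨h0, fun i => ?_, fun i j h => ?_⟩
  · exact hs i.1 i.2
  · exact Fin.ext (hi i.1 j.1 (by omega) (by omega) h)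

theorem disj_ge (n m : ℕ) : cn (n + m) ≤
    ({q | SW n q.1 ∧ SW m q.2 ∧ DJ q.1 q.2} :
      Set ((Fin (n + 1) → ℤ × ℤ) × (Fin (m + 1) → ℤ × ℤ))).ncard := by
  have e : cn (n + m) = ({ω | SW (n + m) ω} : Set (Fin (n + m + 1) → ℤ × ℤ)).ncard :=
    Nat.card_coe_set_eq _
  rw [e]
  refine Set.ncard_le_ncard_of_injOn (fun ω =>
    ((fun i : Fin (n + 1) => ex ω (n - i.1) - ex ω n),
     (fun j : Fin (m + 1) => ex ω (n + j.1) - ex ω n))) ?_ ?_
     (((SW_finite n).prod (SW_finite m)).subset (fun q hq => ⟨hq.1, hq.2.1⟩))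
  · intro ω hω
    have h : SW (n + m) ω := hω
    refine ⟨?_, ?_, ?_⟩
    · refine SW_of (g := fun i => ex ω (n - i) - ex ω n) (by simp) ?_ ?_
      · intro i hi
        rw [adj_sub]
        have h1 := h.step (i := n - (i + 1)) (by omega)
        rw [show n - (i + 1) + 1 = n - i by omega] at h1
        exact adj_comm h1
      · intro i j hi hj hij
        have := h.inj (by omega) (by omega) (sub_left_injective hij)
        omega
    · refine SW_of (g := fun i => ex ω (n + i) - ex ω n) (by simp) ?_ ?_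
      · intro i hi
        rw [adj_sub]
        exact h.step (i := n + i) (by omega)
      · intro i j hi hj hij
        have := h.inj (by omega) (by omega) (sub_left_injective hij)
        omega
    · intro i j hij
      have hi := i.2
      have hj := j.2
      have h1 := h.inj (by omega) (by omega) (sub_left_injective hij)
      refine ⟨Fin.ext ?_, Fin.ext ?_⟩
      · simp only [Fin.val_zero]; omega
      · simp only [Fin.val_zero]; omega
  · intro ω hω ω' hω' hh
    have h : SW (n + m) ω := hω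
    have h' : SW (n + m) ω' := hω'
    simp only [Prod.mk.injEq] at hh
    obtain ⟨h1, h2⟩ := hh
    have e0 : ex ω n = ex ω' n := by
      have := congrFun h1 ⟨n, by omega⟩
      simp only [Nat.sub_self] at this
      rw [h.zero, h'.zero, zero_sub, zero_sub, neg_inj] at this
      exact this
    refine ex_ext (fun k hk => ?_)
    rcases Nat.le_total k n with hkt | hkt
    · have := congrFun h1 ⟨n - k, by omega⟩
      simp only at this
      rw [show n - (n - k) = k by omega, e0] at this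
      exact sub_left_injective this
    · have := congrFun h2 ⟨k - n, by omega⟩
      simp only at this
      rw [show n + (k - n) = k by omega, e0] at this
      exact sub_left_injective this

/-- conditionally on disjointness, few contacts -/
theorem tail_cond : ∃ K : ℝ, 0 < K ∧ ∀ n : ℕ, 2 ≤ n → ∀ x : ℝ, 0 ≤ x →
    (({q | SW n q.1 ∧ SW n q.2 ∧ DJ q.1 q.2 ∧ K * (Real.log n ^ 3 + x) ≤ CC q.1 q.2} :
      Set ((Fin (n + 1) → ℤ × ℤ) × (Fin (n + 1) → ℤ × ℤ))).ncard : ℝ) ≤
    Real.exp (-x) * (({q | SW n q.1 ∧ SW n q.2 ∧ DJ q.1 q.2} :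
      Set ((Fin (n + 1) → ℤ × ℤ) × (Fin (n + 1) → ℤ × ℤ))).ncard : ℝ) := by
  obtain ⟨c, C, hc, hC, h⟩ := tail_pair
  obtain ⟨K, hK, hu⟩ := cn_upper
  set M := |Real.log C| with hM
  have hM0 : 0 ≤ M := abs_nonneg _
  have hCM : C ≤ Real.exp M := by
    rw [← Real.log_le_iff_le_exp hC]
    exact le_abs_self _
  refine ⟨(1 + 4 * M + 2 * K) / c, by positivity, fun n hn x hx => ?_⟩
  have hn' : (2 : ℝ) ≤ n := by exact_mod_cast hn
  set L := Real.log n with hL
  have hlog2 : (0.69 : ℝ) < Real.log 2 := by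
    have := Real.log_two_gt_d9
    linarith
  have hlogN : (0.69 : ℝ) < L := hlog2.trans_le (Real.log_le_log (by norm_num) hn')
  have hL2 : (0.47 : ℝ) ≤ L ^ 2 := by nlinarith
  have hL3 : (0.3 : ℝ) ≤ L ^ 3 := by
    have : L ^ 3 = L ^ 2 * L := by ring
    nlinarith
  set J := ⌈(1 + 4 * M + 2 * K) / c * (L ^ 3 + x)⌉₊ with hJ
  have h1 := h n n J
  have hsub : ({q | SW n q.1 ∧ SW n q.2 ∧ DJ q.1 q.2 ∧
      (1 + 4 * M + 2 * K) / c * (L ^ 3 + x) ≤ CC q.1 q.2} :
      Set ((Fin (n + 1) → ℤ × ℤ) × (Fin (n + 1) → ℤ × ℤ))) ⊆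
      {q | SW n q.1 ∧ SW n q.2 ∧ DJ q.1 q.2 ∧ J ≤ CC q.1 q.2} := by
    rintro q ⟨a1, a2, a3, a4⟩
    exact ⟨a1, a2, a3, Nat.ceil_le.2 a4⟩
  have hfin : ({q | SW n q.1 ∧ SW n q.2 ∧ DJ q.1 q.2 ∧ J ≤ CC q.1 q.2} :
      Set ((Fin (n + 1) → ℤ × ℤ) × (Fin (n + 1) → ℤ × ℤ))).Finite :=
    ((SW_finite n).prod (SW_finite n)).subset (fun q hq => ⟨hq.1, hq.2.1⟩)
  have h2 := Set.ncard_le_ncard hsub hfin
  have h2' : (({q | SW n q.1 ∧ SW n q.2 ∧ DJ q.1 q.2 ∧
      (1 + 4 * M + 2 * K) / c * (L ^ 3 + x) ≤ CC q.1 q.2} :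
      Set ((Fin (n + 1) → ℤ × ℤ) × (Fin (n + 1) → ℤ × ℤ))).ncard : ℝ) ≤
      C * Real.exp (-(c * J)) * (cn n * cn n) := by
    refine le_trans ?_ h1
    exact_mod_cast h2
  refine h2'.trans ?_
  have h3 := hu n hn n le_rfl
  have h4 : (cn n : ℝ) * cn n ≤ Real.exp (2 * (K * L ^ 3)) * cn (n + n) := by
    calc (cn n : ℝ) * cn n ≤ (H981.mu ^ n * Real.exp (K * L ^ 3)) *
          (H981.mu ^ n * Real.exp (K * L ^ 3)) := by
            refine mul_le_mul h3 h3 (by positivity) ?_
            have := mu_pos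
            positivity
      _ = Real.exp (2 * (K * L ^ 3)) * H981.mu ^ (n + n) := by
          rw [two_mul, Real.exp_add, pow_add]; ring
      _ ≤ _ := mul_le_mul_of_nonneg_left (mu_pow_le_cn _) (Real.exp_pos _).le
  have h5 : (cn (n + n) : ℝ) ≤ (({q | SW n q.1 ∧ SW n q.2 ∧ DJ q.1 q.2} :
      Set ((Fin (n + 1) → ℤ × ℤ) × (Fin (n + 1) → ℤ × ℤ))).ncard : ℝ) := by
    exact_mod_cast disj_ge n n
  have h6 : C * Real.exp (-(c * J)) ≤ Real.exp (-x) * Real.exp (-(2 * (K * L ^ 3))) := by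
    calc C * Real.exp (-(c * J)) ≤ Real.exp M * Real.exp (-(c * J)) :=
          mul_le_mul_of_nonneg_right hCM (Real.exp_pos _).le
      _ = Real.exp (M + -(c * J)) := (Real.exp_add _ _).symm
      _ ≤ Real.exp (-x + -(2 * (K * L ^ 3))) := by
          refine Real.exp_le_exp.2 ?_
          have h7 : (1 + 4 * M + 2 * K) / c * (L ^ 3 + x) ≤ J := Nat.le_ceil _
          have h8 : (1 + 4 * M + 2 * K) * (L ^ 3 + x) ≤ c * J := by
            calc (1 + 4 * M + 2 * K) * (L ^ 3 + x) =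
                  c * ((1 + 4 * M + 2 * K) / c * (L ^ 3 + x)) := by field_simp
              _ ≤ c * J := mul_le_mul_of_nonneg_left h7 hc.le
          have h9 : 0 ≤ M * x := by positivity
          have h10 : 0 ≤ K * x := by positivity
          have h11 : M ≤ 4 * M * L ^ 3 := by nlinarith
          nlinarith
      _ = _ := Real.exp_add _ _
  calc C * Real.exp (-(c * J)) * (cn n * cn n)
      ≤ (Real.exp (-x) * Real.exp (-(2 * (K * L ^ 3)))) *
        (Real.exp (2 * (K * L ^ 3)) * cn (n + n)) := by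
        refine mul_le_mul h6 h4 (by positivity) (by positivity)
    _ = Real.exp (-x) * (Real.exp (-(2 * (K * L ^ 3))) * Real.exp (2 * (K * L ^ 3))) *
        cn (n + n) := by ring
    _ = Real.exp (-x) * cn (n + n) := by
        rw [← Real.exp_add, neg_add_cancel, Real.exp_zero, mul_one]
    _ ≤ _ := mul_le_mul_of_nonneg_left h5 (Real.exp_pos _).le

end Pool.Agent.W840.CT
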