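import Pool.Agent.W840.CT.Walk

/-! # Splitting a walk at a time -/

set_option autoImplicit false

namespace Pool.Agent.W840.CT

open scoped Classical

/-- extension to all times -/
noncomputable def ex {N : ℕ} (ω : Fin (N + 1) → ℤ × ℤ) (k : ℕ) : Pt :=
  if h : k < N + 1 then ω ⟨k, h⟩ else 0

theorem ex_val {N : ℕ} (ω : Fin (N + 1) → ℤ × ℤ) (i : Fin (N + 1)) : ex ω i.1 = ω i := by
  unfold ex
  rw [dif_pos i.2]

theorem SW.zero {N : ℕ} {ω : Fin (N + 1) → ℤ × ℤ} (h : SW N ω) : ex ω 0 = 0 := h.1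

theorem SW.step {N : ℕ} {ω : Fin (N + 1) → ℤ × ℤ} (h : SW N ω) {i : ℕ} (hi : i < N) :
    adj (ex ω i) (ex ω (i + 1)) := by
  have h5 := h.2.1 ⟨i, hi⟩
  unfold ex
  rw [dif_pos (show i < N + 1 by omega), dif_pos (show i + 1 < N + 1 by omega)]
  exact h5

theorem SW.inj {N : ℕ} {ω : Fin (N + 1) → ℤ × ℤ} (h : SW N ω) {i j : ℕ} (hi : i ≤ N)
    (hj : j ≤ N) (hij : ex ω i = ex ω j) : i = j := by
  unfold ex at hij
  rw [dif_pos (show i < N + 1 by omega), dif_pos (show j < N + 1 by omega)] at hij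
  have := h.2.2 hij
  simpa using this

/-- the past -/
noncomputable def pa {N : ℕ} (ω : Fin (N + 1) → ℤ × ℤ) (t : ℕ) : List Pt :=
  (List.range (t + 1)).map (fun i => ex ω (t - i) - ex ω t)

/-- the future -/
noncomputable def fu {N : ℕ} (ω : Fin (N + 1) → ℤ × ℤ) (t : ℕ) : List Pt :=
  (List.range (N - t + 1)).map (fun j => ex ω (t + j) - ex ω t)

theorem adj_sub {p q v : Pt} : adj (p - v) (q - v) ↔ adj p q := by
  unfold adj
  simp only [Prod.fst_sub, Prod.snd_sub, sub_sub_sub_cancel_right]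

theorem pa_mem {N : ℕ} {ω : Fin (N + 1) → ℤ × ℤ} (h : SW N ω) {t : ℕ} (ht : t ≤ N) :
    pa ω t ∈ LS t := by
  refine map_mem_LS (by simp) ?_ ?_
  · intro i hi
    rw [adj_sub]
    have h1 := h.step (i := t - (i + 1)) (by omega)
    rw [show t - (i + 1) + 1 = t - i by omega] at h1
    exact adj_comm h1
  · intro i j hi hj hij
    have := h.inj (by omega) (by omega) (sub_left_injective hij)
    omega

theorem fu_mem {N : ℕ} {ω : Fin (N + 1) → ℤ × ℤ} (h : SW N ω) {t : ℕ} (ht : t ≤ N) :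
    fu ω t ∈ LS (N - t) := by
  refine map_mem_LS (by simp) ?_ ?_
  · intro i hi
    rw [adj_sub]
    exact h.step (i := t + i) (by omega)
  · intro i j hi hj hij
    have := h.inj (by omega) (by omega) (sub_left_injective hij)
    omega

theorem split_disj {N : ℕ} {ω : Fin (N + 1) → ℤ × ℤ} (h : SW N ω) {t : ℕ} (ht : t ≤ N) :
    ∀ v ∈ fu ω t, v ∈ pa ω t → v = 0 := by
  intro v h1 h2
  unfold fu at h1
  unfold pa at h2
  rw [List.mem_map] at h1 h2
  obtain ⟨j, hj, rfl⟩ := h1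
  obtain ⟨i, hi, hij⟩ := h2
  rw [List.mem_range] at hi hj
  have := h.inj (by omega) (by omega) (sub_left_injective hij)
  have hj0 : j = 0 := by omega
  subst hj0
  simp

/-- contacts across time `t` -/
noncomputable def TT (N t : ℕ) (ω : Fin (N + 1) → ℤ × ℤ) : ℕ :=
  ((Finset.univ : Finset (Fin (N + 1) × Fin (N + 1))).filter
    (fun q => q.1.1 < t ∧ t < q.2.1 ∧ adj (ω q.1) (ω q.2))).card

theorem TT_le {N : ℕ} {ω : Fin (N + 1) → ℤ × ℤ} (h : SW N ω) {t : ℕ} (ht : t ≤ N) :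
    TT N t ω ≤ KK (pa ω t).toFinset (fu ω t).toFinset := by
  unfold TT KK
  refine Finset.card_le_card_of_injOn
    (fun q => (ex ω q.1.1 - ex ω t, ex ω q.2.1 - ex ω t)) ?_ ?_
  · rintro ⟨i, j⟩ hq
    simp only [Finset.coe_filter, Finset.mem_univ, true_and, Set.mem_ofPred_eq] at hq
    obtain ⟨h1, h2, h3⟩ := hq
    have hi := i.2
    have hj := j.2
    simp only [Finset.coe_filter, Finset.mem_product, Finset.mem_erase, List.mem_toFinset,
      Set.mem_ofPred_eq]
    refine ⟨⟨⟨?_, ?_⟩, ?_, ?_⟩, ?_⟩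
    · intro h4
      have := h.inj (by omega) (by omega) (sub_eq_zero.1 h4)
      omega
    · unfold pa
      rw [List.mem_map]
      refine ⟨t - i.1, List.mem_range.2 (by omega), ?_⟩
      rw [show t - (t - i.1) = i.1 by omega]
    · intro h4
      have := h.inj (by omega) (by omega) (sub_eq_zero.1 h4)
      omega
    · unfold fu
      rw [List.mem_map]
      refine ⟨j.1 - t, List.mem_range.2 (by omega), ?_⟩
      rw [show t + (j.1 - t) = j.1 by omega]
    · rw [adj_sub, ex_val, ex_val]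
      exact h3
  · rintro ⟨i, j⟩ hq ⟨i', j'⟩ hq' h4
    simp only [Prod.mk.injEq] at h4
    have hi := i.2
    have hj := j.2
    have hi' := i'.2
    have hj' := j'.2
    have e1 := h.inj (by omega) (by omega) (sub_left_injective h4.1)
    have e2 := h.inj (by omega) (by omega) (sub_left_injective h4.2)
    rw [Prod.mk.injEq]
    exact ⟨Fin.ext e1, Fin.ext e2⟩

theorem ex_ext {N : ℕ} {ω ω' : Fin (N + 1) → ℤ × ℤ} (h : ∀ k ≤ N, ex ω k = ex ω' k) : ω = ω' := by
  funext i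
  have := h i.1 (by omega)
  rwa [ex_val, ex_val] at this

theorem split_inj {N : ℕ} {ω ω' : Fin (N + 1) → ℤ × ℤ} (h : SW N ω) (h' : SW N ω') {t : ℕ}
    (ht : t ≤ N) (h1 : pa ω t = pa ω' t) (h2 : fu ω t = fu ω' t) : ω = ω' := by
  unfold pa at h1
  unfold fu at h2
  rw [List.map_inj_left] at h1 h2
  have e0 : ex ω t = ex ω' t := by
    have := h1 t (List.mem_range.2 (by omega))
    rw [Nat.sub_self, h.zero, h'.zero, zero_sub, zero_sub, neg_inj] at this
    exact this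
  refine ex_ext (fun k hk => ?_)
  rcases Nat.le_total k t with hkt | hkt
  · have := h1 (t - k) (List.mem_range.2 (by omega))
    rw [show t - (t - k) = k by omega, e0] at this
    exact sub_left_injective this
  · have := h2 (k - t) (List.mem_range.2 (by omega))
    rw [show t + (k - t) = k by omega, e0] at this
    exact sub_left_injective this

/-- walks with many contacts across `t` -/
theorem split_card (N t J : ℕ) (ht : t ≤ N) :
    ({ω | SW N ω ∧ J ≤ TT N t ω} : Set (Fin (N + 1) → ℤ × ℤ)).ncard ≤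
      (PP t (N - t) J).ncard := by
  refine Set.ncard_le_ncard_of_injOn (fun ω => (pa ω t, fu ω t)) ?_ ?_ (PP_finite _ _ _)
  · rintro ω ⟨h1, h2⟩
    exact ⟨pa_mem h1 ht, fu_mem h1 ht, split_disj h1 ht, h2.trans (TT_le h1 ht)⟩
  · rintro ω ⟨h1, -⟩ ω' ⟨h1', -⟩ h
    simp only [Prod.mk.injEq] at h
    exact split_inj h1 h1' ht h.1 h.2

/-! ### Pairs of walks -/

/-- `w` and `w'` meet only at their common starting point -/
def DJ {n m : ℕ} (w : Fin (n + 1) → ℤ × ℤ) (w' : Fin (m + 1) → ℤ × ℤ) : Prop :=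
  ∀ i j, w i = w' j → i = 0 ∧ j = 0

/-- number of contacts of two walks -/
noncomputable def CC {n m : ℕ} (w : Fin (n + 1) → ℤ × ℤ) (w' : Fin (m + 1) → ℤ × ℤ) : ℕ :=
  ((Finset.univ : Finset (Fin (n + 1) × Fin (m + 1))).filter
    (fun q => q.1 ≠ 0 ∧ q.2 ≠ 0 ∧ adj (w q.1) (w' q.2))).card

/-- the walk as a list -/
noncomputable def li {n : ℕ} (w : Fin (n + 1) → ℤ × ℤ) : List Pt :=
  (List.range (n + 1)).map (ex w)

theorem li_mem {n : ℕ} {w : Fin (n + 1) → ℤ × ℤ} (h : SW n w) : li w ∈ LS n :=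
  map_mem_LS h.zero (fun _ hi => h.step hi) (fun _ _ hi hj hij => h.inj hi hj hij)

theorem li_inj {n : ℕ} {w w' : Fin (n + 1) → ℤ × ℤ} (h : li w = li w') : w = w' := by
  unfold li at h
  rw [List.map_inj_left] at h
  exact ex_ext (fun k hk => h k (List.mem_range.2 (by omega)))

theorem CC_le {n m : ℕ} {w : Fin (n + 1) → ℤ × ℤ} {w' : Fin (m + 1) → ℤ × ℤ} (h : SW n w)
    (h' : SW m w') : CC w w' ≤ KK (li w).toFinset (li w').toFinset := by
  unfold CC KK
  refine Finset.card_le_card_of_injOn (fun q => (w q.1, w' q.2)) ?_ ?_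
  · rintro ⟨i, j⟩ hq
    simp only [Finset.coe_filter, Finset.mem_univ, true_and, Set.mem_ofPred_eq] at hq
    obtain ⟨h1, h2, h3⟩ := hq
    simp only [Finset.coe_filter, Finset.mem_product, Finset.mem_erase, List.mem_toFinset,
      Set.mem_ofPred_eq]
    refine ⟨⟨⟨?_, ?_⟩, ?_, ?_⟩, h3⟩
    · intro h4
      exact h1 (h.2.2 (h4.trans h.1.symm))
    · unfold li
      rw [List.mem_map]
      exact ⟨i.1, List.mem_range.2 i.2, ex_val w i⟩
    · intro h4
      exact h2 (h'.2.2 (h4.trans h'.1.symm))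
    · unfold li
      rw [List.mem_map]
      exact ⟨j.1, List.mem_range.2 j.2, ex_val w' j⟩
  · rintro ⟨i, j⟩ hq ⟨i', j'⟩ hq' h4
    simp only [Prod.mk.injEq] at h4
    rw [Prod.mk.injEq]
    exact ⟨h.2.2 h4.1, h'.2.2 h4.2⟩

theorem pair_card (n m J : ℕ) :
    ({q | SW n q.1 ∧ SW m q.2 ∧ DJ q.1 q.2 ∧ J ≤ CC q.1 q.2} :
      Set ((Fin (n + 1) → ℤ × ℤ) × (Fin (m + 1) → ℤ × ℤ))).ncard ≤ (PP n m J).ncard := by
  refine Set.ncard_le_ncard_of_injOn (fun q => (li q.1, li q.2)) ?_ ?_ (PP_finite _ _ _)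
  · rintro ⟨w, w'⟩ ⟨h1, h2, h3, h4⟩
    simp only at h1 h2 h3 h4
    refine ⟨li_mem h1, li_mem h2, ?_, h4.trans (CC_le h1 h2)⟩
    intro v hv hv'
    simp only at hv hv'
    unfold li at hv hv'
    rw [List.mem_map] at hv hv'
    obtain ⟨j, hj, rfl⟩ := hv
    obtain ⟨i, hi, hij⟩ := hv'
    rw [List.mem_range] at hi hj
    have e1 := ex_val w ⟨i, hi⟩
    have e2 := ex_val w' ⟨j, hj⟩
    simp only at e1 e2
    have h5 := h3 ⟨i, hi⟩ ⟨j, hj⟩ (by rw [← e1, ← e2]; exact hij)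
    have h6 : j = 0 := by
      have := congrArg Fin.val h5.2
      simpa using this
    rw [h6]
    exact h2.zero
  · rintro ⟨w, w'⟩ - ⟨u, u'⟩ - h
    simp only [Prod.mk.injEq] at h
    rw [Prod.mk.injEq]
    exact ⟨li_inj h.1, li_inj h.2⟩

end Pool.Agent.W840.CT
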