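import Pool.Agent.W840.CT.Final

/-! # Contacts: the two tail theorems -/

set_option autoImplicit false

namespace Pool.Agent.W840.CT

open scoped Classical

theorem TT_zero {N t : ℕ} (ht : N < t) (ω : Fin (N + 1) → ℤ × ℤ) : TT N t ω = 0 := by
  unfold TT
  rw [Finset.card_eq_zero, Finset.filter_eq_empty_iff]
  rintro ⟨i, j⟩ - ⟨-, h, -⟩
  have := j.2
  simp only at h
  omega

theorem four_pow_ge (r : ℕ) : Real.exp r ≤ (4 : ℝ) ^ r := by
  have h : Real.exp 1 ≤ 4 := by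
    have := Real.exp_one_lt_d9
    linarith
  calc Real.exp r = Real.exp 1 ^ r := by rw [← Real.exp_nat_mul, mul_one]
    _ ≤ 4 ^ r := pow_le_pow_left₀ (Real.exp_pos _).le h r

theorem tail_all : ∃ K : ℝ, 0 < K ∧ ∀ N : ℕ, 2 ≤ N → ∀ x : ℝ, 0 ≤ x →
    (({ω | SW N ω ∧ ∃ t, K * (Real.log N ^ 3 + x) < TT N t ω} :
      Set (Fin (N + 1) → ℤ × ℤ)).ncard : ℝ) ≤ Real.exp (-x) * cn N := by
  obtain ⟨K, hK, h⟩ := cn_upper
  refine ⟨294912 * (40 + 2 * K), by positivity, fun N hN x hx => ?_⟩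
  set L := Real.log N with hL
  have hN' : (2 : ℝ) ≤ N := by exact_mod_cast hN
  have hlog2 : (0.69 : ℝ) < Real.log 2 := by
    have := Real.log_two_gt_d9
    linarith
  have hlogN : (0.69 : ℝ) < L := hlog2.trans_le (Real.log_le_log (by norm_num) hN')
  have hL2 : (0.47 : ℝ) ≤ L ^ 2 := by nlinarith
  have hL3 : (0.3 : ℝ) ≤ L ^ 3 := by
    have : L ^ 3 = L ^ 2 * L := by ring
    nlinarith
  have hLL : L ≤ 2.2 * L ^ 3 := by
    have : L ^ 3 = L ^ 2 * L := by ring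
    rw [this]
    nlinarith
  have hlogA : Real.log (1152 * ((N : ℝ) + 1)) ≤ 30 * L ^ 3 := by
    rw [Real.log_mul (by norm_num) (by positivity)]
    have h1 : Real.log 1152 ≤ 7.7 := by
      calc Real.log 1152 ≤ Real.log (2 ^ 11) := Real.log_le_log (by norm_num) (by norm_num)
        _ = 11 * Real.log 2 := by rw [Real.log_pow]; norm_num
        _ ≤ 7.7 := by
            have := Real.log_two_lt_d9
            linarith
    have h2 : Real.log ((N : ℝ) + 1) ≤ 2 * L := by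
      calc Real.log ((N : ℝ) + 1) ≤ Real.log ((N : ℝ) ^ 2) :=
            Real.log_le_log (by positivity) (by nlinarith)
        _ = 2 * L := by rw [Real.log_pow, hL]; norm_num
    linarith
  set y := x + Real.log (1152 * ((N : ℝ) + 1)) + 2 * (K * L ^ 3) with hy
  set r := ⌈y⌉₊ with hr
  have hy0 : 0 ≤ y := by
    have : 0 ≤ Real.log (1152 * ((N : ℝ) + 1)) := Real.log_nonneg (by nlinarith)
    positivity
  have hr1 : (r : ℝ) ≤ y + 1 := (Nat.ceil_lt_add_one hy0).le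
  have hr2 : y ≤ r := Nat.le_ceil _
  have hthr : (294912 : ℝ) * r + 204 ≤ 294912 * (40 + 2 * K) * (L ^ 3 + x) := by
    have h1 : (294912 : ℝ) * r + 204 ≤ 294912 * (x + 30 * L ^ 3 + 2 * (K * L ^ 3) + 1) + 204 := by
      nlinarith
    have h2 : (0 : ℝ) ≤ K * x := by positivity
    have h3 : (0 : ℝ) ≤ K * L ^ 3 := by positivity
    nlinarith
  -- the union bound
  have hone : ∀ t ∈ Finset.range (N + 1),
      (({ω | SW N ω ∧ 294912 * r + 204 ≤ TT N t ω} :
        Set (Fin (N + 1) → ℤ × ℤ)).ncard : ℝ) ≤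
      Real.exp (-(r : ℝ)) * (1152 * (Real.exp (2 * (K * L ^ 3)) * cn N)) := by
    intro t ht
    rw [Finset.mem_range] at ht
    have h1 := TT_count N t r (by omega)
    have h2 : (4 : ℝ) ^ r * (({ω | SW N ω ∧ 294912 * r + 204 ≤ TT N t ω} :
        Set (Fin (N + 1) → ℤ × ℤ)).ncard : ℝ) ≤ 1152 * ((cn t : ℝ) * cn (N - t)) := by
      exact_mod_cast h1
    have h3 := h N hN t (by omega)
    have h4 := h N hN (N - t) (by omega)
    have h5 : (cn t : ℝ) * cn (N - t) ≤ Real.exp (2 * (K * L ^ 3)) * cn N := by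
      calc (cn t : ℝ) * cn (N - t) ≤ (H981.mu ^ t * Real.exp (K * L ^ 3)) *
            (H981.mu ^ (N - t) * Real.exp (K * L ^ 3)) := by
              refine mul_le_mul h3 h4 (by positivity) ?_
              have := mu_pos
              positivity
        _ = Real.exp (2 * (K * L ^ 3)) * H981.mu ^ (t + (N - t)) := by
            rw [two_mul, Real.exp_add, pow_add]; ring
        _ = Real.exp (2 * (K * L ^ 3)) * H981.mu ^ N := by
            rw [show t + (N - t) = N by omega]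
        _ ≤ _ := mul_le_mul_of_nonneg_left (mu_pow_le_cn N) (Real.exp_pos _).le
    have h6 := four_pow_ge r
    have h7 : Real.exp r * (({ω | SW N ω ∧ 294912 * r + 204 ≤ TT N t ω} :
        Set (Fin (N + 1) → ℤ × ℤ)).ncard : ℝ) ≤
        1152 * (Real.exp (2 * (K * L ^ 3)) * cn N) := by
      calc _ ≤ (4 : ℝ) ^ r * (({ω | SW N ω ∧ 294912 * r + 204 ≤ TT N t ω} :
            Set (Fin (N + 1) → ℤ × ℤ)).ncard : ℝ) :=
              mul_le_mul_of_nonneg_right h6 (Nat.cast_nonneg _)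
        _ ≤ 1152 * ((cn t : ℝ) * cn (N - t)) := h2
        _ ≤ _ := mul_le_mul_of_nonneg_left h5 (by norm_num)
    calc (({ω | SW N ω ∧ 294912 * r + 204 ≤ TT N t ω} :
        Set (Fin (N + 1) → ℤ × ℤ)).ncard : ℝ)
        = Real.exp (-(r : ℝ)) * (Real.exp r * (({ω | SW N ω ∧ 294912 * r + 204 ≤ TT N t ω} :
          Set (Fin (N + 1) → ℤ × ℤ)).ncard : ℝ)) := by
          rw [← mul_assoc, ← Real.exp_add, neg_add_cancel, Real.exp_zero, one_mul]
      _ ≤ _ := mul_le_mul_of_nonneg_left h7 (Real.exp_pos _).le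
  have hsub : ({ω | SW N ω ∧ ∃ t, 294912 * (40 + 2 * K) * (L ^ 3 + x) < TT N t ω} :
      Set (Fin (N + 1) → ℤ × ℤ)) ⊆
      ((Finset.range (N + 1)).biUnion (fun t =>
        ((SW_finite N).subset (fun ω (hω : ω ∈ ({ω | SW N ω ∧ 294912 * r + 204 ≤ TT N t ω} :
          Set (Fin (N + 1) → ℤ × ℤ))) => hω.1)).toFinset) :
        Finset (Fin (N + 1) → ℤ × ℤ)) := by
    rintro ω ⟨h1, t, ht⟩
    rw [Finset.mem_coe, Finset.mem_biUnion]
    have htN : t ≤ N := by
      by_contra hcon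
      rw [TT_zero (by omega) ω, Nat.cast_zero] at ht
      have : 0 ≤ 294912 * (40 + 2 * K) * (L ^ 3 + x) := by positivity
      linarith
    refine ⟨t, Finset.mem_range.2 (by omega), ?_⟩
    rw [Set.Finite.mem_toFinset]
    refine ⟨h1, ?_⟩
    have h2 : ((294912 * r + 204 : ℕ) : ℝ) ≤ (TT N t ω : ℝ) := by
      push_cast
      exact hthr.trans ht.le
    exact_mod_cast h2
  have hle : (({ω | SW N ω ∧ ∃ t, 294912 * (40 + 2 * K) * (L ^ 3 + x) < TT N t ω} :
      Set (Fin (N + 1) → ℤ × ℤ)).ncard : ℝ) ≤ ∑ t ∈ Finset.range (N + 1),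
      (({ω | SW N ω ∧ 294912 * r + 204 ≤ TT N t ω} :
        Set (Fin (N + 1) → ℤ × ℤ)).ncard : ℝ) := by
    have h1 := (Set.ncard_le_ncard hsub (Finset.finite_toSet _))
    rw [Set.ncard_coe_finset] at h1
    have h2 := h1.trans Finset.card_biUnion_le
    have h3 : ∀ t ∈ Finset.range (N + 1), (((SW_finite N).subset (fun ω
        (hω : ω ∈ ({ω | SW N ω ∧ 294912 * r + 204 ≤ TT N t ω} :
          Set (Fin (N + 1) → ℤ × ℤ))) => hω.1)).toFinset).card =
        ({ω | SW N ω ∧ 294912 * r + 204 ≤ TT N t ω} :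
        Set (Fin (N + 1) → ℤ × ℤ)).ncard := by
      intro t _
      exact (Set.ncard_eq_toFinset_card _ _).symm
    rw [Finset.sum_congr rfl h3] at h2
    exact_mod_cast h2
  refine hle.trans ((Finset.sum_le_sum hone).trans ?_)
  rw [Finset.sum_const, Finset.card_range, nsmul_eq_mul]
  push_cast
  have h8 : Real.exp (-(r : ℝ)) ≤ Real.exp (-y) := Real.exp_le_exp.2 (by linarith)
  have h9 : Real.exp (-y) = Real.exp (-x) * (1152 * ((N : ℝ) + 1))⁻¹ *
      Real.exp (-(2 * (K * L ^ 3))) := by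
    rw [hy, neg_add, neg_add, Real.exp_add, Real.exp_add, Real.exp_neg (Real.log _),
      Real.exp_log (by positivity)]
  have hcn := cn_pos N
  calc ((N : ℝ) + 1) * (Real.exp (-(r : ℝ)) * (1152 * (Real.exp (2 * (K * L ^ 3)) * cn N)))
      ≤ ((N : ℝ) + 1) * (Real.exp (-y) * (1152 * (Real.exp (2 * (K * L ^ 3)) * cn N))) := by
        gcongr
    _ = Real.exp (-x) * (Real.exp (-(2 * (K * L ^ 3))) * Real.exp (2 * (K * L ^ 3))) *
        ((1152 * ((N : ℝ) + 1))⁻¹ * (1152 * ((N : ℝ) + 1))) * cn N := by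
        rw [h9]; ring
    _ = Real.exp (-x) * cn N := by
        rw [← Real.exp_add, neg_add_cancel, Real.exp_zero, inv_mul_cancel₀ (by positivity),
          mul_one, mul_one]

theorem tail_pair : ∃ c C : ℝ, 0 < c ∧ 0 < C ∧ ∀ n m J : ℕ,
    (({q | SW n q.1 ∧ SW m q.2 ∧ DJ q.1 q.2 ∧ J ≤ CC q.1 q.2} :
      Set ((Fin (n + 1) → ℤ × ℤ) × (Fin (m + 1) → ℤ × ℤ))).ncard : ℝ) ≤
    C * Real.exp (-(c * J)) * (cn n * cn m) := by
  refine ⟨1 / 294912, 1152 * Real.exp 2, by norm_num, by positivity, fun n m J => ?_⟩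
  set r := (J - 204) / 294912 with hr
  have hf : ({q | SW n q.1 ∧ SW m q.2} :
      Set ((Fin (n + 1) → ℤ × ℤ) × (Fin (m + 1) → ℤ × ℤ))).Finite :=
    ((SW_finite n).prod (SW_finite m)).subset (fun q hq => ⟨hq.1, hq.2⟩)
  have hkey : (4 : ℝ) ^ r * (({q | SW n q.1 ∧ SW m q.2 ∧ DJ q.1 q.2 ∧ J ≤ CC q.1 q.2} :
      Set ((Fin (n + 1) → ℤ × ℤ) × (Fin (m + 1) → ℤ × ℤ))).ncard : ℝ) ≤
      1152 * ((cn n : ℝ) * cn m) := by
    rcases Nat.lt_or_ge J 204 with hJ | hJ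
    · have hr0 : r = 0 := by
        rw [hr, Nat.sub_eq_zero_of_le hJ.le, Nat.zero_div]
      rw [hr0, pow_zero, one_mul]
      have h1 : ({q | SW n q.1 ∧ SW m q.2 ∧ DJ q.1 q.2 ∧ J ≤ CC q.1 q.2} :
          Set ((Fin (n + 1) → ℤ × ℤ) × (Fin (m + 1) → ℤ × ℤ))).ncard ≤
          (({ω | SW n ω} : Set (Fin (n + 1) → ℤ × ℤ)) ×ˢ
            ({ω | SW m ω} : Set (Fin (m + 1) → ℤ × ℤ))).ncard :=
        Set.ncard_le_ncard (fun q hq => ⟨hq.1, hq.2.1⟩) ((SW_finite n).prod (SW_finite m))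
      rw [Set.ncard_prod] at h1
      have h2 : (({ω | SW n ω} : Set (Fin (n + 1) → ℤ × ℤ)).ncard : ℝ) = cn n := by
        unfold cn
        exact_mod_cast (Nat.card_coe_set_eq _).symm
      have h3 : (({ω | SW m ω} : Set (Fin (m + 1) → ℤ × ℤ)).ncard : ℝ) = cn m := by
        unfold cn
        exact_mod_cast (Nat.card_coe_set_eq _).symm
      have h4 : (({q | SW n q.1 ∧ SW m q.2 ∧ DJ q.1 q.2 ∧ J ≤ CC q.1 q.2} :
          Set ((Fin (n + 1) → ℤ × ℤ) × (Fin (m + 1) → ℤ × ℤ))).ncard : ℝ) ≤ cn n * cn m := by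
        rw [← h2, ← h3]
        exact_mod_cast h1
      have h5 := cn_pos n
      have h6 := cn_pos m
      nlinarith [mul_pos (lt_of_lt_of_le one_pos h5) (lt_of_lt_of_le one_pos h6)]
    · have h1 := pair_count n m r
      have hle : 294912 * r + 204 ≤ J := by
        have := Nat.mul_div_le (J - 204) 294912
        rw [← hr] at this
        omega
      have h2 : ({q | SW n q.1 ∧ SW m q.2 ∧ DJ q.1 q.2 ∧ J ≤ CC q.1 q.2} :
          Set ((Fin (n + 1) → ℤ × ℤ) × (Fin (m + 1) → ℤ × ℤ))).ncard ≤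
          ({q | SW n q.1 ∧ SW m q.2 ∧ DJ q.1 q.2 ∧ 294912 * r + 204 ≤ CC q.1 q.2} :
          Set ((Fin (n + 1) → ℤ × ℤ) × (Fin (m + 1) → ℤ × ℤ))).ncard :=
        Set.ncard_le_ncard (fun q hq => ⟨hq.1, hq.2.1, hq.2.2.1, hle.trans hq.2.2.2⟩)
          (hf.subset (fun q hq => ⟨hq.1, hq.2.1⟩))
      have h3 := (Nat.mul_le_mul_left (4 ^ r) h2).trans h1
      exact_mod_cast h3
  have h6 := four_pow_ge r
  have hJr : (J : ℝ) / 294912 - 2 ≤ r := by
    have h1 : J < 294912 * (r + 1) + 204 := by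
      have := Nat.lt_mul_div_succ (J - 204) (show 0 < 294912 by norm_num)
      rw [← hr] at this
      omega
    have h2 : (J : ℝ) < 294912 * (r + 1) + 204 := by exact_mod_cast h1
    have h3 : (J : ℝ) / 294912 < (294912 * (r + 1) + 204) / 294912 := by
      exact div_lt_div_of_pos_right h2 (by norm_num)
    have h4 : ((294912 : ℝ) * (r + 1) + 204) / 294912 ≤ r + 2 := by
      rw [div_le_iff₀ (by norm_num)]
      linarith
    linarith
  set S := (({q | SW n q.1 ∧ SW m q.2 ∧ DJ q.1 q.2 ∧ J ≤ CC q.1 q.2} :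
      Set ((Fin (n + 1) → ℤ × ℤ) × (Fin (m + 1) → ℤ × ℤ))).ncard : ℝ) with hS
  have h7 : Real.exp r * S ≤ 1152 * ((cn n : ℝ) * cn m) :=
    (mul_le_mul_of_nonneg_right h6 (Nat.cast_nonneg _)).trans hkey
  have h8 : S = Real.exp (-(r : ℝ)) * (Real.exp r * S) := by
    rw [← mul_assoc, ← Real.exp_add, neg_add_cancel, Real.exp_zero, one_mul]
  have h9 : Real.exp (-(r : ℝ)) ≤ Real.exp 2 * Real.exp (-(1 / 294912 * (J : ℝ))) := by
    rw [← Real.exp_add]
    refine Real.exp_le_exp.2 ?_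
    have : (J : ℝ) / 294912 = 1 / 294912 * J := by ring
    linarith
  have hcc : (0 : ℝ) ≤ cn n * cn m := by positivity
  calc S = Real.exp (-(r : ℝ)) * (Real.exp r * S) := h8
    _ ≤ Real.exp (-(r : ℝ)) * (1152 * ((cn n : ℝ) * cn m)) :=
        mul_le_mul_of_nonneg_left h7 (Real.exp_pos _).le
    _ ≤ (Real.exp 2 * Real.exp (-(1 / 294912 * (J : ℝ)))) * (1152 * ((cn n : ℝ) * cn m)) :=
        mul_le_mul_of_nonneg_right h9 (by positivity)
    _ = _ := by ring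

end Pool.Agent.W840.CT
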