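import Pool.Agent.W840.CT.Loc
import Pool.Agent.W840.CT.Count

/-! # Contacts of two walks -/

set_option autoImplicit false

namespace Pool.Agent.W840.CT

open scoped Classical

/-- number of contacts of `A` and `B` away from the origin -/
noncomputable def KK (A B : Finset Pt) : ℕ :=
  (((A.erase 0) ×ˢ (B.erase 0)).filter (fun q => adj q.1 q.2)).card

/-- points of `A` in contact with `B` -/
noncomputable def UU (A B : Finset Pt) : Finset Pt :=
  (A.erase 0).filter (fun u => ∃ v ∈ B, v ≠ 0 ∧ adj u v)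

theorem KK_le_UU (A B : Finset Pt) : KK A B ≤ 4 * (UU A B).card := by
  unfold KK
  set S := ((A.erase 0) ×ˢ (B.erase 0)).filter (fun q : Pt × Pt => adj q.1 q.2) with hS
  have h1 : S.card ≤ 4 * (S.image Prod.fst).card := by
    refine Finset.card_le_mul_card_image S 4 (fun a _ => ?_)
    have h2 : (S.filter (fun x => x.1 = a)).card ≤ dirs.card := by
      refine Finset.card_le_card_of_injOn (fun q => q.2 - q.1) ?_ ?_
      · rintro ⟨u, v⟩ hq
        simp only [hS, Finset.coe_filter, Finset.mem_filter, Finset.mem_product,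
          Set.mem_ofPred_eq] at hq
        simp only [Finset.mem_coe]
        rw [mem_dirs]
        exact adj_iff.1 hq.1.2
      · rintro ⟨u, v⟩ hq ⟨u', v'⟩ hq' h
        simp only [hS, Finset.coe_filter, Finset.mem_filter, Finset.mem_product,
          Set.mem_ofPred_eq] at hq hq'
        have e1 := hq.2
        have e2 := hq'.2
        subst e1
        subst e2
        simp only at h
        rw [Prod.mk.injEq]
        exact ⟨rfl, sub_left_injective h⟩
    have h3 : dirs.card = 4 := rfl
    omega
  have h2 : S.image Prod.fst ⊆ UU A B := by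
    intro u hu
    rw [Finset.mem_image] at hu
    obtain ⟨⟨u', v⟩, hq, rfl⟩ := hu
    simp only [hS, Finset.mem_filter, Finset.mem_product, Finset.mem_erase] at hq
    unfold UU
    rw [Finset.mem_filter, Finset.mem_erase]
    exact ⟨hq.1.1, v, hq.1.2.2, hq.1.2.1, hq.2⟩
  exact h1.trans (Nat.mul_le_mul_left _ (Finset.card_le_card h2))

/-- box of radius two -/
noncomputable def box (e : Pt) : Finset Pt :=
  Finset.Icc (e.1 - 2) (e.1 + 2) ×ˢ Finset.Icc (e.2 - 2) (e.2 + 2)

theorem box_card (e : Pt) : (box e).card = 25 := by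
  unfold box
  rw [Finset.card_product, Int.card_Icc, Int.card_Icc]
  have h1 : (e.1 + 2 + 1 - (e.1 - 2)).toNat = 5 := by
    have : e.1 + 2 + 1 - (e.1 - 2) = 5 := by ring
    rw [this]; rfl
  have h2 : (e.2 + 2 + 1 - (e.2 - 2)).toNat = 5 := by
    have : e.2 + 2 + 1 - (e.2 - 2) = 5 := by ring
    rw [this]; rfl
  rw [h1, h2]

theorem mem_box {e p : Pt} : p ∈ box e ↔ |p.1 - e.1| ≤ 2 ∧ |p.2 - e.2| ≤ 2 := by
  unfold box
  rw [Finset.mem_product, Finset.mem_Icc, Finset.mem_Icc, abs_le, abs_le]
  constructor <;> rintro ⟨⟨h1, h2⟩, h3, h4⟩ <;> refine ⟨⟨?_, ?_⟩, ?_, ?_⟩ <;> omega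

theorem UU_le {n m : ℕ} {A B : List Pt} (hA : A ∈ LS n) (hB : B ∈ LS m)
    (hd : ∀ v ∈ B, v ∈ A → v = 0) :
    (UU A.toFinset B.toFinset).card ≤ (QQ A.toFinset B).card + 51 := by
  obtain ⟨a1, a2, a3, a4⟩ := hA
  obtain ⟨b1, b2, b3, b4⟩ := hB
  have hsub : UU A.toFinset B.toFinset ⊆
      QQ A.toFinset B ∪ ({A.getLastD 0} ∪ (box 0 ∪ box (B.getLastD 0))) := by
    intro u hu
    unfold UU at hu
    rw [Finset.mem_filter, Finset.mem_erase, List.mem_toFinset] at hu
    obtain ⟨⟨hu0, huA⟩, v, hvB, hv0, hadj⟩ := hu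
    rw [List.mem_toFinset] at hvB
    by_contra hcon
    simp only [Finset.mem_union, Finset.mem_singleton, not_or] at hcon
    obtain ⟨c1, c2, c3, c4⟩ := hcon
    apply c1
    rw [mem_box] at c3 c4
    -- far from the origin
    have hfar : far u := by
      unfold far
      by_contra h
      push Not at h
      apply c3
      simp only [Prod.fst_zero, Prod.snd_zero, sub_zero]
      omega
    unfold QQ
    rw [Finset.mem_filter, List.mem_toFinset]
    refine ⟨huA, hfar, ?_⟩
    obtain ⟨z, w, hz, hw⟩ := interior huA (by rw [a2]; simpa using fun h => hu0 h.symm) (by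
      intro h
      rw [List.getLastD_eq_getLast?, h] at c2
      exact c2 rfl)
    have hzA := hz.mem_left
    have hwA := hw.mem_right
    refine loc (A := {x | x ∈ A}) b3 b4 huA hzA hwA (Con.ne a4 hz hw) (adj_comm (hz.adj a3))
      (hw.adj a3) hvB hadj (fun x hx hx1 hx2 => ?_)
    have hx0 : x ≠ 0 := by
      rintro rfl
      simp only [Prod.fst_zero, Prod.snd_zero, zero_sub, abs_neg] at hx1 hx2
      rcases hfar with h | h <;> omega
    refine ⟨interior hx (by rw [b2]; simpa using fun h => hx0 h.symm) ?_, fun h => hx0 (hd x hx h)⟩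
    intro h
    apply c4
    rw [List.getLastD_eq_getLast?, h]
    simp only [Option.getD_some]
    rw [abs_sub_comm u.1, abs_sub_comm u.2]
    exact ⟨hx1, hx2⟩
  have h1 := Finset.card_le_card hsub
  have h2 := Finset.card_union_le (QQ A.toFinset B)
    ({A.getLastD 0} ∪ (box 0 ∪ box (B.getLastD 0)))
  have h3 := Finset.card_union_le ({A.getLastD 0} : Finset Pt) (box 0 ∪ box (B.getLastD 0))
  have h4 := Finset.card_union_le (box 0) (box (B.getLastD 0))
  rw [box_card, box_card] at h4
  rw [Finset.card_singleton] at h3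
  omega

theorem KK_le {n m : ℕ} {A B : List Pt} (hA : A ∈ LS n) (hB : B ∈ LS m)
    (hd : ∀ v ∈ B, v ∈ A → v = 0) :
    KK A.toFinset B.toFinset ≤ 4 * (QQ A.toFinset B).card + 204 := by
  have h1 := KK_le_UU A.toFinset B.toFinset
  have h2 := UU_le hA hB hd
  omega

/-- pairs of walks which meet only at the origin and have many contacts -/
def PP (n m J : ℕ) : Set (List Pt × List Pt) :=
  {q | q.1 ∈ LS n ∧ q.2 ∈ LS m ∧ (∀ v ∈ q.2, v ∈ q.1 → v = 0) ∧
    J ≤ KK q.1.toFinset q.2.toFinset}

theorem PP_finite (n m J : ℕ) : (PP n m J).Finite :=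
  ((LS_finite n).prod (LS_finite m)).subset (fun _ hq => ⟨hq.1, hq.2.1⟩)

theorem PP_card (n m r : ℕ) :
    4 ^ r * (PP n m (294912 * r + 204)).ncard ≤ 1152 * ((LS n).ncard * (LS m).ncard) := by
  set G : List Pt → Set (List Pt) := fun A =>
    {B | B ∈ LS m ∧ (∀ v ∈ B, v ∈ A.toFinset → v = 0) ∧ 73728 * r ≤ (QQ A.toFinset B).card}
    with hG
  have hGf : ∀ A, (G A).Finite := fun A => (LS_finite m).subset (fun B hB => hB.1)
  have hsub : (PP n m (294912 * r + 204)) ⊆
      (((LS_finite n).toFinset.sigma (fun A => (hGf A).toFinset)).image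
        (fun q : (Σ _ : List Pt, List Pt) => (q.1, q.2)) : Finset (List Pt × List Pt)) := by
    rintro ⟨A, B⟩ ⟨h1, h2, h3, h4⟩
    simp only at h1 h2 h3 h4
    rw [Finset.mem_coe, Finset.mem_image]
    refine ⟨⟨A, B⟩, ?_, rfl⟩
    rw [Finset.mem_sigma, Set.Finite.mem_toFinset, Set.Finite.mem_toFinset]
    refine ⟨h1, h2, fun v hv hvA => h3 v hv (List.mem_toFinset.1 hvA), ?_⟩
    have h5 := KK_le h1 h2 h3
    show 73728 * r ≤ (QQ A.toFinset B).card
    omega
  have h1 : (PP n m (294912 * r + 204)).ncard ≤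
      ∑ A ∈ (LS_finite n).toFinset, (G A).ncard := by
    refine (Set.ncard_le_ncard hsub (Finset.finite_toSet _)).trans ?_
    rw [Set.ncard_coe_finset]
    refine Finset.card_image_le.trans ?_
    rw [Finset.card_sigma]
    refine Finset.sum_le_sum (fun A _ => le_of_eq ?_)
    rw [Set.ncard_eq_toFinset_card _ (hGf A)]
  calc 4 ^ r * (PP n m (294912 * r + 204)).ncard
      ≤ 4 ^ r * ∑ A ∈ (LS_finite n).toFinset, (G A).ncard := Nat.mul_le_mul_left _ h1
    _ = ∑ A ∈ (LS_finite n).toFinset, 4 ^ r * (G A).ncard := Finset.mul_sum _ _ _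
    _ ≤ ∑ A ∈ (LS_finite n).toFinset, 1152 * (LS m).ncard :=
        Finset.sum_le_sum (fun A _ => count3 A.toFinset r m)
    _ = 1152 * ((LS n).ncard * (LS m).ncard) := by
        rw [Finset.sum_const, smul_eq_mul, ← Set.ncard_eq_toFinset_card _ (LS_finite n)]
        ring

/-! ### Walks as functions -/

/-- `ω` is a self-avoiding walk with `n` steps on `ℤ²`, started at the origin. -/
def SW (n : ℕ) (ω : Fin (n + 1) → ℤ × ℤ) : Prop :=
  ω 0 = (0, 0) ∧
  (∀ i : Fin n, |(ω i.succ).1 - (ω i.castSucc).1| + |(ω i.succ).2 - (ω i.castSucc).2| = 1) ∧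
  Function.Injective ω

theorem map_mem_LS {n : ℕ} {g : ℕ → Pt} (h0 : g 0 = 0)
    (hs : ∀ i, i < n → adj (g i) (g (i + 1)))
    (hi : ∀ i j, i ≤ n → j ≤ n → g i = g j → i = j) :
    (List.range (n + 1)).map g ∈ LS n := by
  refine ⟨by simp, ?_, ?_, ?_⟩
  · rw [List.range_succ_eq_map]
    simp [h0]
  · rw [List.isChain_iff_getElem]
    intro i hi'
    simp only [List.length_map, List.length_range] at hi'
    simp only [List.getElem_map, List.getElem_range]
    exact hs i (by omega)
  · refine List.Nodup.map_on ?_ List.nodup_range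
    intro x hx y hy h
    rw [List.mem_range] at hx hy
    exact hi x y (by omega) (by omega) h

theorem LS_le (n : ℕ) : (LS n).ncard ≤ Nat.card {ω : Fin (n + 1) → ℤ × ℤ // SW n ω} := by
  have hinj : Set.InjOn (fun (l : List Pt) (i : Fin (n + 1)) => l.getD i.1 0) (LS n) := by
    rintro l ⟨h1, -⟩ l' ⟨h1', -⟩ h
    refine List.ext_getElem (by rw [h1, h1']) (fun i hi hi' => ?_)
    have h2 := congrFun h ⟨i, by omega⟩
    simp only at h2
    rw [List.getD_eq_getElem _ _ hi, List.getD_eq_getElem _ _ hi'] at h2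
    exact h2
  have himg : (fun (l : List Pt) (i : Fin (n + 1)) => l.getD i.1 0) '' LS n =
      {ω | SW n ω} := by
    ext ω
    constructor
    · rintro ⟨l, ⟨h1, h2, h3, h4⟩, rfl⟩
      refine ⟨?_, ?_, ?_⟩
      · match l, h2 with
        | a :: l, h2 =>
          simp only [List.head?_cons, Option.some.injEq] at h2
          subst h2
          rfl
      · intro i
        have hi : i.1 + 1 < l.length := by rw [h1]; omega
        have h5 := List.isChain_iff_getElem.1 h3 i.1 hi
        unfold adj at h5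
        simp only [Fin.val_succ, Fin.val_castSucc]
        rw [List.getD_eq_getElem _ _ hi, List.getD_eq_getElem _ _ (by omega)]
        exact h5
      · intro i j h
        simp only at h
        rw [List.getD_eq_getElem _ _ (by omega), List.getD_eq_getElem _ _ (by omega),
          h4.getElem_inj_iff] at h
        exact Fin.ext h
    · rintro ⟨h1, h2, h3⟩
      refine ⟨(List.range (n + 1)).map (fun i => if h : i < n + 1 then ω ⟨i, h⟩ else 0),
        map_mem_LS ?_ ?_ ?_, ?_⟩
      · simp only [dif_pos (Nat.succ_pos n)]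
        exact h1
      · intro i hi
        have h5 := h2 ⟨i, hi⟩
        simp only [dif_pos (show i < n + 1 by omega), dif_pos (show i + 1 < n + 1 by omega)]
        exact h5
      · intro i j hi hj h
        simp only [dif_pos (show i < n + 1 by omega), dif_pos (show j < n + 1 by omega)] at h
        have := h3 h
        simpa using this
      · funext i
        simp only
        have hi := i.2
        rw [List.getD_eq_getElem _ _ (by rw [List.length_map, List.length_range]; exact hi)]
        simp only [List.getElem_map, List.getElem_range]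
        rw [dif_pos hi]
  have h1 : ({ω | SW n ω} : Set (Fin (n + 1) → ℤ × ℤ)).ncard = (LS n).ncard := by
    rw [← himg, hinj.ncard_image]
  rw [← h1]
  exact le_of_eq (Nat.card_coe_set_eq _).symm

end Pool.Agent.W840.CT
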